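import Pool.Agent.Helper27.PGK.End

/-!
Project P1 (MP_b8862a_ag): Hermitian forms of the signature `(k, l)`, `k, l ≥ 2`. The matrices that commute with all
the polynomial projections.
-/

set_option linter.unusedSectionVars false
set_option linter.unusedSimpArgs false

open Matrix Kronecker

namespace MH.Her27.UK

variable {κ : Type*} [Fintype κ] [DecidableEq κ] [Nonempty κ]

theorem kron_exp (E Ec S T : Matrix κ κ ℂ) (t : ℂ) : (E + t • S) ⊗ₖ (Ec + t • T) =
    E ⊗ₖ Ec + t • (S ⊗ₖ Ec + E ⊗ₖ T) + (t * t) • (S ⊗ₖ T) := by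
  ext x y
  simp only [kroneckerMap_apply, Matrix.add_apply, Matrix.smul_apply, smul_eq_mul]
  ring

theorem three {ι : Type*} [Fintype ι] {B X L S : Matrix ι ι ℂ}
    (h : ∀ t : ℂ, B * (X + t • L + (t * t) • S) = (X + t • L + (t * t) • S) * B) : B * L = L * B ∧ B * S = S * B := by
  have h0 := h 0
  have h1 := h 1
  have h2 := h (-1)
  simp only [zero_smul, add_zero, mul_zero, mul_add, add_mul, one_smul, mul_one, neg_mul, neg_smul, one_mul, neg_neg,
    mul_neg] at h0 h1 h2
  constructor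
  · have e1 : (2 : ℂ) • (B * L) = (2 : ℂ) • (L * B) := by
      rw [two_smul, two_smul]
      calc B * L + B * L = (B * X + B * L + B * S) - (B * X + -(B * L) + B * S) := by abel
        _ = _ := by rw [h1, h2]; abel
    exact smul_right_injective _ (two_ne_zero) e1
  · have e1 : (2 : ℂ) • (B * S) = (2 : ℂ) • (S * B) := by
      rw [two_smul, two_smul]
      calc B * S + B * S = (B * X + B * L + B * S) + (B * X + -(B * L) + B * S) - (B * X + B * X) := by abel
        _ = _ := by rw [h1, h2, h0]; abel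
    exact smul_right_injective _ (two_ne_zero) e1

theorem smul_sng (i j : κ) (t : ℂ) : Matrix.single i j t = t • Matrix.single i j (1 : ℂ) := by
  rw [Matrix.smul_single, smul_eq_mul, mul_one]

/-- the linear term -/
noncomputable def LL (N : Finset κ) (a b : κ) : Matrix (κ × κ) (κ × κ) ℂ :=
  Matrix.single b a 1 ⊗ₖ (1 - EE ℂ N) + EE ℂ N ⊗ₖ Matrix.single a b 1

theorem E_apply {N : Finset κ} {c : κ} (hc : c ∈ N) (x : κ) : EE ℂ N x c = if x = c then 1 else 0 := by
  unfold EE
  rw [Matrix.diagonal_apply]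
  by_cases h : x = c
  · subst h; simp [hc]
  · simp [h]

theorem oneE_apply {N : Finset κ} {q : κ} (hq : q ∉ N) (x : κ) : (1 - EE ℂ N) x q = if x = q then 1 else 0 := by
  unfold EE
  rw [Matrix.sub_apply, Matrix.diagonal_apply, Matrix.one_apply]
  by_cases h : x = q
  · subst h; simp [hq]
  · simp [h]

theorem LL_apply {N : Finset κ} {a b c q : κ} (hc : c ∈ N) (hq : q ∉ N) (x : κ × κ) : LL N a b x (c, q) =
    (if c = a then (if x = (b, q) then 1 else 0) else 0) + (if q = b then (if x = (c, a) then 1 else 0) else 0) := by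
  obtain ⟨x1, x2⟩ := x
  unfold LL
  rw [Matrix.add_apply, kroneckerMap_apply, kroneckerMap_apply, E_apply hc, oneE_apply hq, Matrix.single_apply,
    Matrix.single_apply]
  simp only [Prod.mk.injEq]
  congr 1
  · by_cases e1 : c = a
    · by_cases e3 : x1 = b
      · simp [e1, e3]
      · simp [e1, e3, Ne.symm e3]
    · simp [e1, Ne.symm e1]
  · by_cases e2 : q = b
    · by_cases e3 : x2 = a
      · simp [e2, e3]
      · simp [e2, e3, Ne.symm e3]
    · simp [e2, Ne.symm e2]

theorem down (N : Finset κ) {a b : κ} (ha : a ∈ N) (hb : b ∉ N) {B : Matrix (κ × κ) (κ × κ) ℂ}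
    (h : ∀ z z' : κ → ℂ, B * RR N z z' = RR N z z' * B) :
    B * LL N a b = LL N a b * B ∧
    B * Matrix.single (b, a) (a, b) 1 = Matrix.single (b, a) (a, b) 1 * B := by
  have h1 := three (B := B) (X := EE ℂ N ⊗ₖ (1 - EE ℂ N))
    (L := Matrix.single b a 1 ⊗ₖ (1 - EE ℂ N) + EE ℂ N ⊗ₖ Matrix.single a b 1)
    (S := Matrix.single b a 1 ⊗ₖ Matrix.single a b 1) (fun t => by
      have := h (fun i => (if i = a then (1 : ℂ) else 0) + (if i = b then t / 2 else 0)) (fun i => if i = a then -1 else 0)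
      rw [RR_down N ha hb t, smul_sng b a t, smul_sng a b t, kron_exp] at this
      exact this)
  rw [Matrix.single_kronecker_single, one_mul] at h1
  exact h1

theorem up (N : Finset κ) {a b : κ} (ha : a ∈ N) (hb : b ∉ N) {B : Matrix (κ × κ) (κ × κ) ℂ}
    (h : ∀ z z' : κ → ℂ, B * RR N z z' = RR N z z' * B) :
    B * Matrix.single (a, b) (b, a) 1 = Matrix.single (a, b) (b, a) 1 * B := by
  have h1 := three (B := B) (X := EE ℂ N ⊗ₖ (1 - EE ℂ N))
    (L := Matrix.single a b 1 ⊗ₖ (1 - EE ℂ N) + EE ℂ N ⊗ₖ Matrix.single b a 1)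
    (S := Matrix.single a b 1 ⊗ₖ Matrix.single b a 1) (fun t => by
      have := h (fun i => (if i = b then (1 : ℂ) else 0) + (if i = a then (-t) / 2 else 0)) (fun i => if i = b then 1 else 0)
      rw [RR_up N ha hb (-t), smul_sng b a (-t), smul_sng a b (-t), neg_smul, neg_smul, sub_neg_eq_add, sub_neg_eq_add,
        kron_exp] at this
      exact this)
  rw [Matrix.single_kronecker_single, one_mul] at h1
  exact h1.2

theorem col_of_comm {ι : Type*} [Fintype ι] [DecidableEq ι] {B : Matrix ι ι ℂ} {x y : ι}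
    (h : B * Matrix.single x y 1 = Matrix.single x y 1 * B) (p : ι) : B p x = if p = x then B y y else 0 := by
  have h1 := congrFun (congrFun h p) y
  rw [Matrix.mul_single_apply_same, mul_one] at h1
  rw [h1]
  by_cases hp : p = x
  · subst hp
    rw [if_pos rfl, Matrix.single_mul_apply_same, one_mul]
  · rw [if_neg hp, Matrix.single_mul_apply_of_ne _ _ _ _ _ hp]

theorem comm_RR (N : Finset κ) {a0 a1 b0 b1 : κ} (ha0 : a0 ∈ N) (ha1 : a1 ∈ N) (ha : a0 ≠ a1) (hb0 : b0 ∉ N)
    (hb1 : b1 ∉ N) (hb : b0 ≠ b1) (B : Matrix (κ × κ) (κ × κ) ℂ)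
    (h : ∀ z z' : κ → ℂ, B * RR N z z' = RR N z z' * B) :
    ∃ (c : ℂ) (v : κ × κ → ℂ), B = c • 1 + vecMulVec v (hv ℂ N) := by
  have hcol1 : ∀ a b, a ∈ N → b ∉ N → ∀ p, B p (a, b) = if p = (a, b) then B (b, a) (b, a) else 0 :=
    fun a b ha hb p => col_of_comm (up N ha hb h) p
  have hcol2 : ∀ a b, a ∈ N → b ∉ N → ∀ p, B p (b, a) = if p = (b, a) then B (a, b) (a, b) else 0 :=
    fun a b ha hb p => col_of_comm (down N ha hb h).2 p
  have hdiag : ∀ a b, a ∈ N → b ∉ N → B (b, a) (b, a) = B (a, b) (a, b) := by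
    intro a b ha hb
    rw [hcol2 a b ha hb, if_pos rfl]
  have hL : ∀ a b c q, a ∈ N → b ∉ N → c ∈ N → q ∉ N → ∀ p,
      (if c = a then B p (b, q) else 0) + (if q = b then B p (c, a) else 0) =
      ((if c = a then (if p = (b, q) then 1 else 0) else 0) + (if q = b then (if p = (c, a) then 1 else 0) else 0)) *
        B (c, q) (c, q) := by
    intro a b c q ha hb hc hq p
    have h1 := congrFun (congrFun (down N ha hb h).1 p) (c, q)
    have hcolL : ∀ x : κ × κ, LL N a b x (c, q) =
        (if c = a then (if x = (b, q) then 1 else 0) else 0) + (if q = b then (if x = (c, a) then 1 else 0) else 0) :=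
      fun x => LL_apply hc hq x
    have e1 : (B * LL N a b) p (c, q) =
        (if c = a then B p (b, q) else 0) + (if q = b then B p (c, a) else 0) := by
      rw [Matrix.mul_apply]
      simp only [hcolL, mul_add, Finset.sum_add_distrib, mul_ite, mul_one, mul_zero]
      congr 1
      · split_ifs <;> simp
      · split_ifs <;> simp
    have e2 : (LL N a b * B) p (c, q) =
        ((if c = a then (if p = (b, q) then 1 else 0) else 0) + (if q = b then (if p = (c, a) then 1 else 0) else 0)) *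
        B (c, q) (c, q) := by
      rw [Matrix.mul_apply, Finset.sum_eq_single (c, q)]
      · rw [hcolL]
      · intro x _ hx
        rw [hcol1 c q hc hq x, if_neg hx, mul_zero]
      · intro hx
        exact absurd (Finset.mem_univ _) hx
    rw [e1, e2] at h1
    exact h1
  have R1 : ∀ a b q, a ∈ N → b ∉ N → q ∉ N → b ≠ q → ∀ p, B p (b, q) = if p = (b, q) then B (a, q) (a, q) else 0 := by
    intro a b q ha hb hq hbq p
    have := hL a b a q ha hb ha hq p
    rw [if_pos rfl, if_neg (Ne.symm hbq), if_pos rfl, if_neg (Ne.symm hbq), add_zero, add_zero, ite_mul, one_mul,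
      zero_mul] at this
    exact this
  have R2 : ∀ a b c, a ∈ N → b ∉ N → c ∈ N → c ≠ a → ∀ p, B p (c, a) = if p = (c, a) then B (c, b) (c, b) else 0 := by
    intro a b c ha hb hc hca p
    have := hL a b c b ha hb hc hb p
    rw [if_neg hca, if_pos rfl, if_neg hca, if_pos rfl, zero_add, zero_add, ite_mul, one_mul, zero_mul] at this
    exact this
  have l1 : ∀ a a' q, a ∈ N → a' ∈ N → q ∉ N → B (a, q) (a, q) = B (a', q) (a', q) := by
    intro a a' q ha ha' hq
    obtain ⟨b, hbN, hbq⟩ : ∃ b, b ∉ N ∧ b ≠ q := by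
      by_cases hq0 : b0 = q
      · exact ⟨b1, hb1, fun e => hb (hq0.trans e.symm)⟩
      · exact ⟨b0, hb0, hq0⟩
    have e1 := R1 a b q ha hbN hq hbq (b, q)
    have e2 := R1 a' b q ha' hbN hq hbq (b, q)
    rw [if_pos rfl] at e1 e2
    rw [← e1, e2]
  have l2 : ∀ c b b', c ∈ N → b ∉ N → b' ∉ N → B (c, b) (c, b) = B (c, b') (c, b') := by
    intro c b b' hc hb hb'
    obtain ⟨a, haN, hac⟩ : ∃ a, a ∈ N ∧ c ≠ a := by
      by_cases hc0 : c = a0
      · exact ⟨a1, ha1, fun e => ha (hc0.symm.trans e)⟩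
      · exact ⟨a0, ha0, hc0⟩
    have e1 := R2 a b c haN hb hc hac (c, a)
    have e2 := R2 a b' c haN hb' hc hac (c, a)
    rw [if_pos rfl] at e1 e2
    rw [← e1, e2]
  obtain ⟨c, hc⟩ : ∃ c, c = B (a0, b0) (a0, b0) := ⟨_, rfl⟩
  have hlam : ∀ a b, a ∈ N → b ∉ N → B (a, b) (a, b) = c := by
    intro a b haN hbN
    rw [hc, l1 a a0 b haN ha0 hbN, l2 a0 b b0 ha0 hbN hb0]
  have R3 : ∀ a b, a ∈ N → b ∉ N → ∀ p, B p (b, b) + B p (a, a) =
      ((if p = (b, b) then 1 else 0) + (if p = (a, a) then 1 else 0)) * c := by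
    intro a b haN hbN p
    have := hL a b a b haN hbN haN hbN p
    rw [if_pos rfl, if_pos rfl, if_pos rfl, if_pos rfl, hlam a b haN hbN] at this
    exact this
  obtain ⟨C, hC⟩ : ∃ C, C = B - c • (1 : Matrix (κ × κ) (κ × κ) ℂ) := ⟨_, rfl⟩
  have hCe : ∀ p q, C p q = B p q - (if p = q then c else 0) := by
    intro p q
    rw [hC, Matrix.sub_apply, Matrix.smul_apply, Matrix.one_apply, smul_eq_mul, mul_ite, mul_one, mul_zero]
  have D : ∀ a b, a ∈ N → b ∉ N → ∀ p, C p (b, b) + C p (a, a) = 0 := by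
    intro a b haN hbN p
    have := R3 a b haN hbN p
    rw [hCe, hCe]
    rw [add_mul, ite_mul, ite_mul, one_mul, zero_mul] at this
    linear_combination this
  refine ⟨c, fun p => C p (b0, b0), ?_⟩
  have e1 : C = vecMulVec (fun p => C p (b0, b0)) (hv ℂ N) := by
    ext p q
    rw [vecMulVec_apply, hv_apply]
    obtain ⟨i, j⟩ := q
    by_cases hij : i = j
    · subst hij
      rw [if_pos rfl]
      by_cases hi : i ∈ N
      · rw [sg_in hi]
        linear_combination D i b0 hi hb0 p
      · rw [sg_out hi]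
        linear_combination D a0 i ha0 hi p - D a0 b0 ha0 hb0 p
    · simp only [if_neg hij, mul_zero]
      by_cases hi : i ∈ N <;> by_cases hj : j ∈ N
      · rw [hCe, R2 j b0 i hj hb0 hi hij p, hlam i b0 hi hb0, sub_self]
      · rw [hCe, hcol1 i j hi hj p, hdiag i j hi hj, hlam i j hi hj, sub_self]
      · rw [hCe, hcol2 j i hj hi p, hlam j i hj hi, sub_self]
      · rw [hCe, R1 a0 i j ha0 hi hj hij p, hlam a0 j ha0 hj, sub_self]
  rw [← e1, hC]
  abel

end MH.Her27.UK
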