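import Pool.Agent.Helper27.PGK.Her

/-!
Project P1 (MP_b8862a_ag): Hermitian forms of the signature `(k, l)`, `k, l ≥ 2`. The matrices that commute with all
the projections of the family; polynomial identities.
-/

set_option linter.unusedSectionVars false
set_option linter.unusedSimpArgs false

open Matrix Kronecker Polynomial

namespace MH.Her27.UK

variable {κ : Type*} [Fintype κ] [DecidableEq κ] [Nonempty κ]

section ring
variable {K L : Type*} [CommRing K] [CommRing L]

/-- the Hermitian form -/
def qq (N : Finset κ) (z z' : κ → K) : K := ∑ i, sg K N i * z i * z' i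

/-- the matrix `z z'ᵀ H` -/
def MM (N : Finset κ) (z z' : κ → K) : Matrix κ κ K := Matrix.of fun i j => z i * z' j * sg K N j

theorem MM_apply (N : Finset κ) (z z' : κ → K) (i j : κ) : MM N z z' i j = z i * z' j * sg K N j := rfl

theorem MM_mul (N : Finset κ) (z z' w w' : κ → K) : MM N z z' * MM N w w' = (qq N w z') • MM N z w' := by
  ext i j
  simp only [Matrix.mul_apply, MM_apply, Matrix.smul_apply, smul_eq_mul, qq, Finset.sum_mul]
  refine Finset.sum_congr rfl fun k _ => ?_
  ring

theorem HH_MM (N : Finset κ) (z z' : κ → K) : HH K N * MM N z z' = (MM N z' z)ᵀ * HH K N := by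
  ext i j
  unfold HH
  rw [Matrix.diagonal_mul, Matrix.mul_diagonal, Matrix.transpose_apply, MM_apply, MM_apply]
  ring

theorem qq_map (f : K →+* L) (N : Finset κ) (z z' : κ → K) : f (qq N z z') = qq N (f ∘ z) (f ∘ z') := by
  unfold qq
  rw [map_sum]
  refine Finset.sum_congr rfl fun i _ => ?_
  rw [map_mul, map_mul, sg_map]
  rfl

theorem qq_comm (N : Finset κ) (z z' : κ → K) : qq N z z' = qq N z' z := by
  unfold qq
  refine Finset.sum_congr rfl fun i _ => ?_
  ring

theorem MM_map (f : K →+* L) (N : Finset κ) (z z' : κ → K) : (MM N z z').map f = MM N (f ∘ z) (f ∘ z') := by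
  ext i j
  rw [Matrix.map_apply, MM_apply, MM_apply, map_mul, map_mul, sg_map]
  rfl

/-- the polynomial form of the reflection -/
def UQ (N : Finset κ) (z z' : κ → K) : Matrix κ κ K := (2 : K) • MM N z z' - qq N z z' • (1 : Matrix κ κ K)

theorem UQ_map (f : K →+* L) (N : Finset κ) (z z' : κ → K) : (UQ N z z').map f = UQ N (f ∘ z) (f ∘ z') := by
  have h1 := MM_map f N z z'
  ext i j
  have g1 := congrFun (congrFun h1 i) j
  rw [Matrix.map_apply] at g1
  simp only [UQ, Matrix.map_apply, Matrix.sub_apply, Matrix.smul_apply, smul_eq_mul, map_mul, map_sub, qq_map, g1,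
    Matrix.one_apply, apply_ite f, map_one, map_zero, map_ofNat]

theorem EE_map (f : K →+* L) (N : Finset κ) : (EE K N).map f = EE L N := by
  unfold EE
  rw [Matrix.diagonal_map (map_zero f)]
  congr 1
  funext i
  simp only [apply_ite f, map_one, map_zero]

/-- the polynomial form of the idempotent -/
def FQ (N : Finset κ) (z z' : κ → K) : Matrix κ κ K := UQ N z z' * EE K N * UQ N z z'

theorem FQ_map (f : K →+* L) (N : Finset κ) (z z' : κ → K) : (FQ N z z').map f = FQ N (f ∘ z) (f ∘ z') := by
  unfold FQ
  rw [Matrix.map_mul, Matrix.map_mul, UQ_map, EE_map]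

/-- the polynomial form of the projection -/
def RR (N : Finset κ) (z z' : κ → K) : Matrix (κ × κ) (κ × κ) K :=
  FQ N z z' ⊗ₖ ((qq N z z') ^ 2 • (1 : Matrix κ κ K) - FQ N z' z)

theorem RR_map (f : K →+* L) (N : Finset κ) (z z' : κ → K) : (RR N z z').map f = RR N (f ∘ z) (f ∘ z') := by
  have h1 := FQ_map f N z z'
  have h2 := FQ_map f N z' z
  ext a b
  have g1 := congrFun (congrFun h1 a.1) b.1
  have g2 := congrFun (congrFun h2 a.2) b.2
  rw [Matrix.map_apply] at g1 g2
  simp only [RR, Matrix.map_apply, kroneckerMap_apply, Matrix.sub_apply, Matrix.smul_apply, smul_eq_mul, map_mul,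
    map_sub, map_pow, qq_map, g1, g2, Matrix.one_apply, apply_ite f, map_one, map_zero]

end ring

/-- a polynomial identity on infinitely many real points of a line -/
theorem ext_line (N : Finset κ) (B : Matrix (κ × κ) (κ × κ) ℂ) (a b a' b' : κ → ℂ) {R : Set ℝ} (hR : R.Infinite)
    (h : ∀ τ ∈ R, B * RR N (fun i => a i + (τ : ℂ) * b i) (fun i => a' i + (τ : ℂ) * b' i) =
      RR N (fun i => a i + (τ : ℂ) * b i) (fun i => a' i + (τ : ℂ) * b' i) * B) (t : ℂ) :
    B * RR N (fun i => a i + t * b i) (fun i => a' i + t * b' i) =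
      RR N (fun i => a i + t * b i) (fun i => a' i + t * b' i) * B := by
  let zX : κ → ℂ[X] := fun i => C (a i) + X * C (b i)
  let zX' : κ → ℂ[X] := fun i => C (a' i) + X * C (b' i)
  let D : Matrix (κ × κ) (κ × κ) ℂ[X] := B.map (C : ℂ →+* ℂ[X]) * RR N zX zX' - RR N zX zX' * B.map (C : ℂ →+* ℂ[X])
  have hev : ∀ τ : ℂ, D.map (evalRingHom τ) =
      B * RR N (fun i => a i + τ * b i) (fun i => a' i + τ * b' i) -
        RR N (fun i => a i + τ * b i) (fun i => a' i + τ * b' i) * B := by
    intro τ
    have e1 : (RR N zX zX').map (evalRingHom τ) = RR N (fun i => a i + τ * b i) (fun i => a' i + τ * b' i) := by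
      rw [RR_map]
      congr 1
      · funext i
        simp [zX]
        ring
      · funext i
        simp [zX']
        ring
    have e2 : (B.map (C : ℂ →+* ℂ[X])).map (evalRingHom τ) = B := by
      ext x y
      simp
    have e3 : D.map (evalRingHom τ) = (B.map (C : ℂ →+* ℂ[X]) * RR N zX zX').map (evalRingHom τ) -
        (RR N zX zX' * B.map (C : ℂ →+* ℂ[X])).map (evalRingHom τ) := by
      ext x y
      simp only [D, Matrix.map_apply, Matrix.sub_apply, map_sub]
    rw [e3, Matrix.map_mul, Matrix.map_mul, e1, e2]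
  have hD : D = 0 := by
    ext1 x y
    refine Polynomial.eq_zero_of_infinite_isRoot _ ?_
    refine Set.Infinite.mono ?_ (hR.image (Complex.ofReal_injective.injOn))
    rintro _ ⟨τ, hτ, rfl⟩
    have h1 := hev τ
    rw [h _ hτ, sub_self] at h1
    have h2 := congrFun (congrFun h1 x) y
    rw [Matrix.map_apply, Matrix.zero_apply] at h2
    exact h2
  have h1 := hev t
  rw [hD] at h1
  have e5 : (0 : Matrix (κ × κ) (κ × κ) ℂ[X]).map (evalRingHom t) = 0 := by
    ext x y
    simp
  rw [e5] at h1
  exact (sub_eq_zero.1 h1.symm)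

/-- a polynomial identity on an open set of points `(z, star z)` holds everywhere -/
theorem ext_all (N : Finset κ) (B : Matrix (κ × κ) (κ × κ) ℂ) {W : Set (κ → ℂ)} (hW : IsOpen W) {z0 : κ → ℂ}
    (h0 : z0 ∈ W) (h : ∀ z ∈ W, B * RR N z (star z) = RR N z (star z) * B) (z z' : κ → ℂ) :
    B * RR N z z' = RR N z z' * B := by
  have h1 : ∀ z1 : κ → ℂ, B * RR N z1 (star z1) = RR N z1 (star z1) * B := by
    intro z1
    have hcont : Continuous fun τ : ℝ => (fun i => z0 i + τ * (z1 i - z0 i) : κ → ℂ) := by fun_prop
    have hopen : IsOpen {τ : ℝ | (fun i => z0 i + τ * (z1 i - z0 i) : κ → ℂ) ∈ W} := hW.preimage hcont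
    have hmem : (0 : ℝ) ∈ {τ : ℝ | (fun i => z0 i + τ * (z1 i - z0 i) : κ → ℂ) ∈ W} := by
      simpa using h0
    have hinf : {τ : ℝ | (fun i => z0 i + τ * (z1 i - z0 i) : κ → ℂ) ∈ W}.Infinite :=
      infinite_of_mem_nhds (0 : ℝ) (hopen.mem_nhds hmem)
    have e := ext_line N B z0 (fun i => z1 i - z0 i) (star z0) (star fun i => z1 i - z0 i) hinf (by
      intro τ hτ
      have := h _ hτ
      have e1 : star (fun i => z0 i + (τ : ℂ) * (z1 i - z0 i)) =
          fun i => (star z0) i + (τ : ℂ) * (star fun i => z1 i - z0 i) i := by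
        funext i
        simp
      rw [e1] at this
      exact this) 1
    have e4 : (fun i => z0 i + 1 * (z1 i - z0 i)) = z1 := by
      funext i
      simp
    have e5 : (fun i => (star z0) i + 1 * (star fun i => z1 i - z0 i) i) = star z1 := by
      funext i
      simp
    rw [e4, e5] at e
    exact e
  have hI : (Complex.I : ℂ) ≠ 0 := Complex.I_ne_zero
  obtain ⟨a, ha⟩ : ∃ a : κ → ℂ, a = fun i => (z i + star (z' i)) / 2 := ⟨_, rfl⟩
  obtain ⟨b, hb⟩ : ∃ b : κ → ℂ, b = fun i => (z i - star (z' i)) / (2 * Complex.I) := ⟨_, rfl⟩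
  have e := ext_line N B a b (star a) (star b) (Set.infinite_univ (α := ℝ)) (by
    intro τ _
    have := h1 (fun i => a i + (τ : ℂ) * b i)
    have e1 : star (fun i => a i + (τ : ℂ) * b i) = fun i => (star a) i + (τ : ℂ) * (star b) i := by
      funext i
      simp
    rw [e1] at this
    exact this) Complex.I
  have e4 : (fun i => a i + Complex.I * b i) = z := by
    funext i
    rw [ha, hb]
    field_simp
    ring
  have e5 : (fun i => (star a) i + Complex.I * (star b) i) = z' := by
    funext i
    rw [ha, hb]
    simp only [Pi.star_apply, star_div₀, star_add, star_sub, star_mul', star_ofNat, Complex.star_def,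
      Complex.conj_I, Complex.conj_conj]
    field_simp
    ring
  rw [e4, e5] at e
  exact e

/-! ### the special points -/

section ring
variable {K : Type*} [CommRing K]

theorem E_single (N : Finset κ) (i j : κ) (c : K) :
    EE K N * Matrix.single i j c = if i ∈ N then Matrix.single i j c else 0 := by
  unfold EE
  ext x y
  rw [Matrix.diagonal_mul]
  by_cases h : i = x
  · subst h
    split_ifs <;> simp
  · split_ifs <;> simp [Matrix.single_apply, h]

theorem single_E (N : Finset κ) (i j : κ) (c : K) :
    Matrix.single i j c * EE K N = if j ∈ N then Matrix.single i j c else 0 := by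
  unfold EE
  ext x y
  rw [Matrix.mul_diagonal]
  by_cases h : j = y
  · subst h
    split_ifs <;> simp
  · split_ifs <;> simp [Matrix.single_apply, h]

end ring

theorem qq_single (N : Finset κ) {a b : κ} (hab : a ≠ b) (s t : ℂ) :
    qq N (fun i => (if i = a then (1 : ℂ) else 0) + (if i = b then t else 0)) (fun i => if i = a then s else 0) =
      sg ℂ N a * s := by
  unfold qq
  rw [Finset.sum_eq_single a]
  · simp [hab]
  · intro i _ hi
    simp [hi]
  · intro h
    exact absurd (Finset.mem_univ _) h

theorem qq_single' (N : Finset κ) {a b : κ} (hab : a ≠ b) (s t : ℂ) :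
    qq N (fun i => if i = a then s else 0) (fun i => (if i = a then (1 : ℂ) else 0) + (if i = b then t else 0)) =
      sg ℂ N a * s := by
  rw [qq_comm, qq_single N hab]

theorem sg_in {N : Finset κ} {a : κ} (ha : a ∈ N) : sg ℂ N a = -1 := if_pos ha

theorem sg_out {N : Finset κ} {b : κ} (hb : b ∉ N) : sg ℂ N b = 1 := if_neg hb

/-- the point that moves the negative vector `a` in the direction `b` -/
theorem RR_down (N : Finset κ) {a b : κ} (ha : a ∈ N) (hb : b ∉ N) (t : ℂ) :
    RR N (fun i => (if i = a then (1 : ℂ) else 0) + (if i = b then t / 2 else 0)) (fun i => if i = a then -1 else 0) =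
      (EE ℂ N + Matrix.single b a t) ⊗ₖ (1 - EE ℂ N + Matrix.single a b t) := by
  have hab : a ≠ b := fun h => hb (h ▸ ha)
  have q1 := qq_single N hab (-1) (t / 2)
  have q2 := qq_single' N hab (-1) (t / 2)
  rw [sg_in ha] at q1 q2
  have m1 : UQ N (fun i => (if i = a then (1 : ℂ) else 0) + (if i = b then t / 2 else 0))
      (fun i => if i = a then -1 else 0) = Matrix.single a a 2 + Matrix.single b a t - 1 := by
    unfold UQ
    rw [q1]
    ext i j
    simp only [Matrix.sub_apply, Matrix.smul_apply, smul_eq_mul, MM_apply, Matrix.add_apply, Matrix.single_apply]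
    by_cases h1 : i = a <;> by_cases h2 : j = a
    · subst h1; subst h2; simp [sg_in ha, hab, hab.symm]
    · subst h1; simp [h2, Ne.symm h2]
    · subst h2
      by_cases h3 : i = b
      · subst h3; simp [sg_in ha, hab, hab.symm]; ring
      · simp [h1, h3, Ne.symm h1, Ne.symm h3]
    · simp [h2, Ne.symm h2]
  have m2 : UQ N (fun i => if i = a then -1 else 0)
      (fun i => (if i = a then (1 : ℂ) else 0) + (if i = b then t / 2 else 0)) =
        Matrix.single a a 2 - Matrix.single a b t - 1 := by
    unfold UQ
    rw [q2]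
    ext i j
    simp only [Matrix.sub_apply, Matrix.smul_apply, smul_eq_mul, MM_apply, Matrix.single_apply]
    by_cases h1 : i = a
    · subst h1
      by_cases h2 : j = i
      · subst h2; simp [sg_in ha, hab, hab.symm]
      · by_cases h3 : j = b
        · subst h3; simp [sg_out hb, hab, h2]; ring
        · simp [h2, h3, Ne.symm h2, Ne.symm h3]
    · simp [h1, Ne.symm h1]
  have f1 : FQ N (fun i => (if i = a then (1 : ℂ) else 0) + (if i = b then t / 2 else 0))
      (fun i => if i = a then -1 else 0) = EE ℂ N + Matrix.single b a t := by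
    unfold FQ
    rw [m1]
    simp only [sub_mul, add_mul, mul_sub, mul_add, single_E, E_single, if_pos ha, if_neg hb, one_mul, mul_one,
      Matrix.single_mul_single_same, Matrix.single_mul_single_of_ne _ _ _ _ hab, mul_zero]
    ext i j
    simp only [Matrix.sub_apply, Matrix.add_apply, Matrix.single_apply, Matrix.zero_apply]
    split_ifs <;> ring
  have f2 : FQ N (fun i => if i = a then -1 else 0)
      (fun i => (if i = a then (1 : ℂ) else 0) + (if i = b then t / 2 else 0)) = EE ℂ N - Matrix.single a b t := by
    unfold FQ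
    rw [m2]
    simp only [sub_mul, add_mul, mul_sub, mul_add, single_E, E_single, if_pos ha, if_neg hb, one_mul, mul_one,
      Matrix.single_mul_single_same, Matrix.single_mul_single_of_ne _ _ _ _ hab.symm, mul_zero, zero_mul]
    ext i j
    simp only [Matrix.sub_apply, Matrix.add_apply, Matrix.single_apply, Matrix.zero_apply]
    split_ifs <;> ring
  unfold RR
  rw [f1, f2, q1]
  congr 1
  rw [show ((-1 : ℂ) * -1) ^ 2 = 1 by norm_num, one_smul]
  abel

/-- the point that moves the positive vector `b` in the direction `a` -/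
theorem RR_up (N : Finset κ) {a b : κ} (ha : a ∈ N) (hb : b ∉ N) (t : ℂ) :
    RR N (fun i => (if i = b then (1 : ℂ) else 0) + (if i = a then t / 2 else 0)) (fun i => if i = b then 1 else 0) =
      (EE ℂ N - Matrix.single a b t) ⊗ₖ (1 - EE ℂ N - Matrix.single b a t) := by
  have hab : a ≠ b := fun h => hb (h ▸ ha)
  have q1 := qq_single N hab.symm 1 (t / 2)
  have q2 := qq_single' N hab.symm 1 (t / 2)
  rw [sg_out hb] at q1 q2
  have m1 : UQ N (fun i => (if i = b then (1 : ℂ) else 0) + (if i = a then t / 2 else 0))
      (fun i => if i = b then 1 else 0) = Matrix.single b b 2 + Matrix.single a b t - 1 := by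
    unfold UQ
    rw [q1]
    ext i j
    simp only [Matrix.sub_apply, Matrix.smul_apply, smul_eq_mul, MM_apply, Matrix.add_apply, Matrix.single_apply]
    by_cases h1 : i = b <;> by_cases h2 : j = b
    · subst h1; subst h2; simp [sg_out hb, hab, hab.symm]
    · subst h1; simp [h2, Ne.symm h2]
    · subst h2
      by_cases h3 : i = a
      · subst h3; simp [sg_out hb, hab, hab.symm]; ring
      · simp [h1, h3, Ne.symm h1, Ne.symm h3]
    · simp [h2, Ne.symm h2]
  have m2 : UQ N (fun i => if i = b then 1 else 0)
      (fun i => (if i = b then (1 : ℂ) else 0) + (if i = a then t / 2 else 0)) =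
        Matrix.single b b 2 - Matrix.single b a t - 1 := by
    unfold UQ
    rw [q2]
    ext i j
    simp only [Matrix.sub_apply, Matrix.smul_apply, smul_eq_mul, MM_apply, Matrix.single_apply]
    by_cases h1 : i = b
    · subst h1
      by_cases h2 : j = i
      · subst h2; simp [sg_out hb, hab, hab.symm]
      · by_cases h3 : j = a
        · subst h3; simp [sg_in ha, hab, hab.symm]; ring
        · simp [h2, h3, Ne.symm h2, Ne.symm h3]
    · simp [h1, Ne.symm h1]
  have f1 : FQ N (fun i => (if i = b then (1 : ℂ) else 0) + (if i = a then t / 2 else 0))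
      (fun i => if i = b then 1 else 0) = EE ℂ N - Matrix.single a b t := by
    unfold FQ
    rw [m1]
    simp only [sub_mul, add_mul, mul_sub, mul_add, single_E, E_single, if_pos ha, if_neg hb, one_mul, mul_one,
      Matrix.single_mul_single_same, Matrix.single_mul_single_of_ne _ _ _ _ hab, mul_zero, zero_mul]
    ext i j
    simp only [Matrix.sub_apply, Matrix.add_apply, Matrix.single_apply, Matrix.zero_apply]
    split_ifs <;> ring
  have f2 : FQ N (fun i => if i = b then 1 else 0)
      (fun i => (if i = b then (1 : ℂ) else 0) + (if i = a then t / 2 else 0)) = EE ℂ N + Matrix.single b a t := by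
    unfold FQ
    rw [m2]
    simp only [sub_mul, add_mul, mul_sub, mul_add, single_E, E_single, if_pos ha, if_neg hb, one_mul, mul_one,
      Matrix.single_mul_single_same, Matrix.single_mul_single_of_ne _ _ _ _ hab, mul_zero, zero_mul]
    ext i j
    simp only [Matrix.sub_apply, Matrix.add_apply, Matrix.single_apply, Matrix.zero_apply]
    split_ifs <;> ring
  unfold RR
  rw [f1, f2, q1]
  congr 1
  rw [show ((1 : ℂ) * 1) ^ 2 = 1 by norm_num, one_smul]
  abel

end MH.Her27.UK
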