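import Pool.Agent.Helper27.PGK.Com

/-!
Project P1 (MP_b8862a_ag): Hermitian forms of the signature `(k, l)`. The family of Hodge structures, by unitary
reflections.
-/

set_option linter.unusedSectionVars false

open Matrix Kronecker

namespace MH.Her27.UK

variable {κ : Type*} [Fintype κ] [DecidableEq κ] [Nonempty κ]

/-- the unitary reflection `2 z z* H / q - 1` -/
noncomputable def UU (N : Finset κ) (z : κ → ℂ) : Matrix κ κ ℂ := (2 / qq N z (star z)) • MM N z (star z) - 1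

/-- its complex conjugate -/
noncomputable def UV (N : Finset κ) (z : κ → ℂ) : Matrix κ κ ℂ := (2 / qq N z (star z)) • MM N (star z) z - 1

variable {N : Finset κ} {z : κ → ℂ}

theorem qq_real (N : Finset κ) (z : κ → ℂ) : starRingEnd ℂ (qq N z (star z)) = qq N z (star z) := by
  unfold qq
  rw [map_sum]
  refine Finset.sum_congr rfl fun i _ => ?_
  rw [map_mul, map_mul, sg_map, Pi.star_apply, starRingEnd_apply, starRingEnd_apply, star_star]
  ring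

theorem UU_sq (hq : qq N z (star z) ≠ 0) : UU N z * UU N z = 1 := by
  unfold UU
  rw [sub_mul, mul_sub, mul_sub, smul_mul_smul_comm, MM_mul, mul_one, one_mul, mul_one, smul_smul]
  have e1 : 2 / qq N z (star z) * (2 / qq N z (star z)) * qq N z (star z) = 2 * (2 / qq N z (star z)) := by
    field_simp
  rw [e1, mul_smul, two_smul]
  abel

theorem UV_sq (hq : qq N z (star z) ≠ 0) : UV N z * UV N z = 1 := by
  unfold UV
  rw [sub_mul, mul_sub, mul_sub, smul_mul_smul_comm, MM_mul, mul_one, one_mul, mul_one, smul_smul,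
    qq_comm N (star z) z]
  have e1 : 2 / qq N z (star z) * (2 / qq N z (star z)) * qq N z (star z) = 2 * (2 / qq N z (star z)) := by
    field_simp
  rw [e1, mul_smul, two_smul]
  abel

theorem UU_conj : (UU N z).map (starRingEnd ℂ) = UV N z := by
  ext i j
  simp only [UU, UV, Matrix.map_apply, Matrix.sub_apply, Matrix.smul_apply, smul_eq_mul, map_sub, map_mul, map_div₀,
    qq_real, MM_apply, Pi.star_apply, Matrix.one_apply, apply_ite (starRingEnd ℂ), map_one, map_zero, map_ofNat]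
  have h1 : starRingEnd ℂ (sg ℂ N j) = sg ℂ N j := by
    unfold sg
    split_ifs <;> simp
  rw [h1, starRingEnd_apply, starRingEnd_apply, star_star]

theorem UV_conj : (UV N z).map (starRingEnd ℂ) = UU N z := by
  rw [← UU_conj, Matrix.map_map]
  ext i j
  simp

theorem HH_UU : HH ℂ N * UU N z = (UV N z)ᵀ * HH ℂ N := by
  unfold UU UV
  rw [mul_sub, mul_smul_comm, HH_MM, mul_one, Matrix.transpose_sub, Matrix.transpose_smul, Matrix.transpose_one,
    sub_mul, smul_mul_assoc, one_mul]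

theorem HH_UV : HH ℂ N * UV N z = (UU N z)ᵀ * HH ℂ N := by
  unfold UU UV
  rw [mul_sub, mul_smul_comm, HH_MM, mul_one, Matrix.transpose_sub, Matrix.transpose_smul, Matrix.transpose_one,
    sub_mul, smul_mul_assoc, one_mul]

theorem UHV (hq : qq N z (star z) ≠ 0) : UU N z * HH ℂ N * (UV N z)ᵀ = HH ℂ N := by
  have h1 : (UV N z)ᵀ = HH ℂ N * UU N z * HH ℂ N := by
    rw [HH_UU, mul_assoc, HH_mul_HH, mul_one]
  rw [h1]
  calc UU N z * HH ℂ N * (HH ℂ N * UU N z * HH ℂ N) = UU N z * (HH ℂ N * HH ℂ N) * UU N z * HH ℂ N := by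
        simp only [mul_assoc]
    _ = HH ℂ N := by rw [HH_mul_HH, mul_one, UU_sq hq, one_mul]

theorem VHU (hq : qq N z (star z) ≠ 0) : (UU N z)ᵀ * HH ℂ N * UV N z = HH ℂ N := by
  rw [← HH_UV, mul_assoc, UV_sq hq, mul_one]

theorem VHU' (hq : qq N z (star z) ≠ 0) : (UV N z)ᵀ * HH ℂ N * UU N z = HH ℂ N := by
  rw [← HH_UU, mul_assoc, UU_sq hq, mul_one]

/-- the real isometry -/
noncomputable def GG (N : Finset κ) (z : κ → ℂ) : Matrix (κ × κ) (κ × κ) ℂ := Phi' κ * (UU N z ⊗ₖ UV N z) * Ph κ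

theorem GG_sq (hq : qq N z (star z) ≠ 0) : GG N z * GG N z = 1 := by
  unfold GG
  calc Phi' κ * (UU N z ⊗ₖ UV N z) * Ph κ * (Phi' κ * (UU N z ⊗ₖ UV N z) * Ph κ) =
        Phi' κ * ((UU N z ⊗ₖ UV N z) * (Ph κ * Phi' κ) * (UU N z ⊗ₖ UV N z)) * Ph κ := by simp only [mul_assoc]
    _ = 1 := by
      rw [Ph_mul, mul_one, ← Matrix.mul_kronecker_mul, UU_sq hq, UV_sq hq, Matrix.one_kronecker_one, mul_one,
        Phi'_mul]

theorem GG_conj : (GG N z).map (starRingEnd ℂ) = GG N z := by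
  unfold GG
  rw [Matrix.map_mul, Matrix.map_mul, Phi'_conj, Ph_conj, map_kron, UU_conj, UV_conj, ← tau_kron_tau]
  have e1 : Ph κ * tau κ ℂ = Phi' κ := Ph_tau κ
  have e2 : tau κ ℂ * Phi' κ = Ph κ := by
    rw [← tau_Ph, ← mul_assoc, tau_mul_tau, one_mul]
  calc Ph κ * (tau κ ℂ * (UU N z ⊗ₖ UV N z) * tau κ ℂ) * Phi' κ =
        (Ph κ * tau κ ℂ) * (UU N z ⊗ₖ UV N z) * (tau κ ℂ * Phi' κ) := by simp only [mul_assoc]
    _ = _ := by rw [e1, e2]

theorem GG_QQ (hq : qq N z (star z) ≠ 0) : (GG N z)ᵀ * toC (QQ ℚ N) * GG N z = toC (QQ ℚ N) := by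
  rw [toC_QQ]
  unfold GG
  rw [Matrix.transpose_mul, Matrix.transpose_mul, Ph_transpose, Phi'_transpose, ← Matrix.kroneckerMap_transpose]
  have e2 : Phi' κ * QQ ℂ N * Phi' κ = QQ ℂ N * tau κ ℂ := by
    rw [← QQ_Phi', mul_assoc, Phi'_Phi']
  calc Ph κ * ((UU N z)ᵀ ⊗ₖ (UV N z)ᵀ * Phi' κ) * QQ ℂ N * (Phi' κ * (UU N z ⊗ₖ UV N z) * Ph κ) =
        Ph κ * ((UU N z)ᵀ ⊗ₖ (UV N z)ᵀ * (Phi' κ * QQ ℂ N * Phi' κ) * (UU N z ⊗ₖ UV N z)) * Ph κ := by
          simp only [mul_assoc]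
    _ = Ph κ * ((UU N z)ᵀ ⊗ₖ (UV N z)ᵀ * QQ ℂ N * (tau κ ℂ * (UU N z ⊗ₖ UV N z))) * Ph κ := by
          rw [e2]; simp only [mul_assoc]
    _ = Ph κ * ((UU N z)ᵀ ⊗ₖ (UV N z)ᵀ * QQ ℂ N * (UV N z ⊗ₖ UU N z)) * (tau κ ℂ * Ph κ) := by
          rw [tau_kron]; simp only [mul_assoc]
    _ = Ph κ * QQ ℂ N * Phi' κ := by
          unfold QQ
          rw [← Matrix.mul_kronecker_mul, ← Matrix.mul_kronecker_mul, VHU hq, VHU' hq, tau_Ph]
    _ = QQ ℂ N := by rw [← QQ_Ph, mul_assoc, Ph_mul, mul_one]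

theorem GG_ZZ (hq : qq N z (star z) ≠ 0) : GG N z * ZZ ℂ N = ZZ ℂ N := by
  unfold GG
  rw [mul_assoc, Ph_ZZ, mul_assoc]
  have e1 : (UU N z ⊗ₖ UV N z) * ZZ ℂ N = ZZ ℂ N := by
    unfold ZZ
    rw [Matrix.mul_vecMulVec]
    congr 1
    have := kron_mulVec (UU N z) (UV N z) (HH ℂ N)
    rw [UHV hq] at this
    exact this
  rw [e1, Phi'_ZZ]

theorem ZZ_GG (hq : qq N z (star z) ≠ 0) : ZZ ℂ N * GG N z = ZZ ℂ N := by
  unfold GG
  rw [← mul_assoc, ← mul_assoc]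
  have e0 : ZZ ℂ N * Phi' κ = ZZ ℂ N := by
    conv_lhs => rw [← ZZ_Ph N]
    rw [mul_assoc, Ph_mul, mul_one]
  have e1 : (UU N z ⊗ₖ UV N z)ᵀ * ZZ ℂ N = ZZ ℂ N := by
    unfold ZZ
    rw [Matrix.mul_vecMulVec, ← Matrix.kroneckerMap_transpose]
    congr 1
    have := kron_mulVec (UU N z)ᵀ (UV N z)ᵀ (HH ℂ N)
    rw [Matrix.transpose_transpose, VHU hq] at this
    exact this
  have e2 : ZZ ℂ N * (UU N z ⊗ₖ UV N z) = ZZ ℂ N := by
    have h2 := congrArg Matrix.transpose e1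
    rw [Matrix.transpose_mul, ZZ_transpose, Matrix.transpose_transpose] at h2
    exact h2
  rw [e0, e2, ZZ_Ph]

theorem GG_ee (hq : qq N z (star z) ≠ 0) : GG N z * toC (ee N) * GG N z = toC (ee N) := by
  rw [toC_ee, mul_sub, sub_mul, mul_one, GG_sq hq, mul_smul_comm, smul_mul_assoc, GG_ZZ hq, ZZ_GG hq]

/-- the Hodge structure at the point `z` -/
theorem fam_big (hq : qq N z (star z) ≠ 0) : BigHW27 (QQ ℚ N) (ee N) (fun p => GG N z * P0 N p * GG N z) :=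
  (base_big N).conj27 (GG_sq hq) (GG_sq hq) GG_conj (GG_QQ hq) (GG_ee hq)

theorem UU_UQ (hq : qq N z (star z) ≠ 0) : UU N z = (qq N z (star z))⁻¹ • UQ N z (star z) := by
  unfold UU UQ
  rw [smul_sub, smul_smul, smul_smul, inv_mul_cancel₀ hq, one_smul]
  congr 2
  ring

theorem UV_UQ (hq : qq N z (star z) ≠ 0) : UV N z = (qq N z (star z))⁻¹ • UQ N (star z) z := by
  unfold UV UQ
  rw [smul_sub, smul_smul, smul_smul, qq_comm N (star z) z, inv_mul_cancel₀ hq, one_smul]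
  congr 2
  ring

theorem UEU (hq : qq N z (star z) ≠ 0) : UU N z * EE ℂ N * UU N z =
    ((qq N z (star z))⁻¹ ^ 2) • FQ N z (star z) := by
  rw [UU_UQ hq]
  unfold FQ
  rw [smul_mul_assoc, smul_mul_assoc, mul_smul_comm, smul_smul, sq]

theorem VEV (hq : qq N z (star z) ≠ 0) : UV N z * EE ℂ N * UV N z =
    ((qq N z (star z))⁻¹ ^ 2) • FQ N (star z) z := by
  rw [UV_UQ hq]
  unfold FQ
  rw [smul_mul_assoc, smul_mul_assoc, mul_smul_comm, smul_smul, sq]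

theorem P2_eq (hq : qq N z (star z) ≠ 0) : Ph κ * (GG N z * P0 N 2 * GG N z) * Phi' κ =
    ((qq N z (star z))⁻¹ ^ 4) • RR N z (star z) := by
  have e1 : Ph κ * (GG N z * P0 N 2 * GG N z) * Phi' κ =
      (UU N z ⊗ₖ UV N z) * R0 N 2 * (UU N z ⊗ₖ UV N z) := by
    unfold GG P0
    calc Ph κ * (Phi' κ * (UU N z ⊗ₖ UV N z) * Ph κ * (Phi' κ * R0 N 2 * Ph κ) *
          (Phi' κ * (UU N z ⊗ₖ UV N z) * Ph κ)) * Phi' κ =
          (Ph κ * Phi' κ) * (UU N z ⊗ₖ UV N z) * (Ph κ * Phi' κ) * R0 N 2 * (Ph κ * Phi' κ) *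
            (UU N z ⊗ₖ UV N z) * (Ph κ * Phi' κ) := by simp only [mul_assoc]
      _ = _ := by simp only [Ph_mul, mul_one, one_mul]
  have e2 : UV N z * (1 - EE ℂ N) * UV N z = 1 - UV N z * EE ℂ N * UV N z := by
    rw [mul_sub, sub_mul, mul_one, UV_sq hq]
  rw [e1, R0_two, ← Matrix.mul_kronecker_mul, ← Matrix.mul_kronecker_mul, e2, UEU hq, VEV hq]
  have e3 : (1 : Matrix κ κ ℂ) - (qq N z (star z))⁻¹ ^ 2 • FQ N (star z) z =
      ((qq N z (star z))⁻¹ ^ 2) • ((qq N z (star z) ^ 2) • 1 - FQ N (star z) z) := by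
    rw [smul_sub, smul_smul, ← mul_pow, inv_mul_cancel₀ hq, one_pow, one_smul]
  unfold RR
  rw [e3, Matrix.smul_kronecker, Matrix.kronecker_smul, smul_smul]
  congr 1
  ring

end MH.Her27.UK
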