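import Pool.Agent.Helper27.PGK.Fam
import Pool.Agent.Helper27.PGN.Fin
import Pool.Agent.Helper94.SH.Fact
import Pool.Agent.Helper94.SH.NotFull
import Pool.Agent.Helper55.UG.TateGQ

/-!
Project P1 (MP_b8862a_ag): the Hodge numbers `kl, k² + l² - 1, kl`: a polarised Hodge structure of weight 2 with only
scalar endomorphisms whose Mumford-Tate group is not the full group (trace zero part of Hermitian forms over `ℚ(i)` of
the signature `(k, l)`).
-/

set_option linter.unusedSectionVars false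

open Matrix Kronecker

namespace MH.Her27.UK

variable {κ : Type*} [Fintype κ] [DecidableEq κ] [Nonempty κ]

theorem card_ne (κ : Type*) [Fintype κ] [Nonempty κ] : (Fintype.card κ : ℂ) ≠ 0 := by
  exact_mod_cast Fintype.card_ne_zero

theorem end_big (N : Finset κ) {a0 a1 b0 b1 : κ} (ha0 : a0 ∈ N) (ha1 : a1 ∈ N) (ha : a0 ≠ a1) (hb0 : b0 ∉ N)
    (hb1 : b1 ∉ N) (hb : b0 ≠ b1) {W : Set (κ → ℂ)} (hW : IsOpen W) (hne : W.Nonempty)
    (hWq : ∀ z ∈ W, qq N z (star z) ≠ 0) {A : Matrix (κ × κ) (κ × κ) ℚ} (hA : A * ee N = A)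
    (h : ∀ z ∈ W, toC A * (GG N z * P0 N 2 * GG N z) = (GG N z * P0 N 2 * GG N z) * toC A) :
    ∃ c : ℚ, A = c • ee N := by
  obtain ⟨z0, h0⟩ := hne
  have hk := card_ne κ
  obtain ⟨B, hB⟩ : ∃ B, B = Ph κ * toC A * Phi' κ := ⟨_, rfl⟩
  have h1 : ∀ z ∈ W, B * RR N z (star z) = RR N z (star z) * B := by
    intro z hz
    have hq := hWq z hz
    have e1 : B * (Ph κ * (GG N z * P0 N 2 * GG N z) * Phi' κ) =
        (Ph κ * (GG N z * P0 N 2 * GG N z) * Phi' κ) * B := by
      rw [hB]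
      calc Ph κ * toC A * Phi' κ * (Ph κ * (GG N z * P0 N 2 * GG N z) * Phi' κ) =
            Ph κ * toC A * (Phi' κ * Ph κ) * (GG N z * P0 N 2 * GG N z) * Phi' κ := by simp only [mul_assoc]
        _ = Ph κ * (toC A * (GG N z * P0 N 2 * GG N z)) * Phi' κ := by
            rw [Phi'_mul, mul_one]; simp only [mul_assoc]
        _ = Ph κ * (GG N z * P0 N 2 * GG N z) * (Phi' κ * Ph κ) * toC A * Phi' κ := by
            rw [h z hz, Phi'_mul, mul_one]; simp only [mul_assoc]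
        _ = _ := by simp only [mul_assoc]
    rw [P2_eq hq, mul_smul_comm, smul_mul_assoc] at e1
    have hne : ((qq N z (star z))⁻¹ ^ 4) ≠ 0 := pow_ne_zero _ (inv_ne_zero hq)
    exact smul_right_injective _ hne e1
  obtain ⟨c, v, hc⟩ := comm_RR N ha0 ha1 ha hb0 hb1 hb B (ext_all N B hW h0 h1)
  have hAZ : toC A * ZZ ℂ N = 0 := by
    have e1 : toC A * toC (ee N) = toC A := by
      rw [← toC_mul, hA]
    rw [← e1, mul_assoc, toC_ee, sub_mul, one_mul, smul_mul_assoc, ZZ_mul_ZZ, smul_smul, inv_mul_cancel₀ hk, one_smul,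
      sub_self, mul_zero]
  have hBZ : B * ZZ ℂ N = 0 := by
    rw [hB, mul_assoc, Phi'_ZZ, mul_assoc, hAZ, mul_zero]
  have hv : vecMulVec v (hv ℂ N) = -((c * (Fintype.card κ : ℂ)⁻¹) • ZZ ℂ N) := by
    rw [hc, add_mul, smul_mul_assoc, one_mul] at hBZ
    have e1 : vecMulVec v (UK.hv ℂ N) * ZZ ℂ N = (Fintype.card κ : ℂ) • vecMulVec v (UK.hv ℂ N) := by
      unfold ZZ
      rw [Matrix.vecMulVec_mul_vecMulVec, hv_dot]
      ext a b
      simp only [vecMulVec_apply, Pi.smul_apply, smul_eq_mul, Matrix.smul_apply]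
      ring
    rw [e1] at hBZ
    have e2 : (Fintype.card κ : ℂ) • vecMulVec v (UK.hv ℂ N) = -(c • ZZ ℂ N) :=
      eq_neg_of_add_eq_zero_right hBZ
    have e3 := congrArg (fun X => (Fintype.card κ : ℂ)⁻¹ • X) e2
    simp only [smul_smul, inv_mul_cancel₀ hk, one_smul, smul_neg] at e3
    rw [e3, mul_comm c]
  have hBe : B = c • toC (ee N) := by
    rw [hc, hv, toC_ee, smul_sub, smul_smul, sub_eq_add_neg]
  have hAe : toC A = c • toC (ee N) := by
    have e1 : toC A = Phi' κ * B * Ph κ := by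
      rw [hB]
      calc toC A = (Phi' κ * Ph κ) * toC A * (Phi' κ * Ph κ) := by rw [Phi'_mul, one_mul, mul_one]
        _ = _ := by simp only [mul_assoc]
    rw [e1, hBe, mul_smul_comm, smul_mul_assoc, toC_ee, mul_sub, sub_mul, mul_one, Phi'_mul, mul_smul_comm,
      smul_mul_assoc, Phi'_ZZ, ZZ_Ph]
  have hab : a0 ≠ b0 := fun e => hb0 (e ▸ ha0)
  have hcr : c = algebraMap ℚ ℂ (A (a0, b0) (a0, b0)) := by
    have e1 := congrFun (congrFun hAe (a0, b0)) (a0, b0)
    have e2 : UK.hv ℂ N (a0, b0) = 0 := by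
      rw [hv_apply, if_neg hab]
    rw [toC_ee, Matrix.smul_apply, Matrix.sub_apply, Matrix.smul_apply, Matrix.one_apply_eq, ZZ, vecMulVec_apply, e2,
      smul_eq_mul, smul_eq_mul, mul_zero, mul_zero, sub_zero, mul_one] at e1
    exact e1.symm
  refine ⟨A (a0, b0) (a0, b0), toC_inj27 ?_⟩
  rw [hAe, hcr, toC_smul27]

/-! ### the parameter space -/

/-- the parameter space -/
abbrev TT (N : Finset κ) : Type _ := {z : κ → ℂ // qq N z (star z) ≠ 0}

theorem cont_qq (N : Finset κ) : Continuous fun z : κ → ℂ => qq N z (star z) := by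
  unfold qq
  simp only [Pi.star_apply]
  fun_prop

theorem isOpen_TT (N : Finset κ) : IsOpen {z : κ → ℂ | qq N z (star z) ≠ 0} :=
  isOpen_ne_fun (cont_qq N) continuous_const

instance (N : Finset κ) : BaireSpace (TT N) := (isOpen_TT N).baireSpace

instance (N : Finset κ) : Nonempty (TT N) := by
  obtain ⟨o⟩ := ‹Nonempty κ›
  refine ⟨⟨fun i => if i = o then 1 else 0, ?_⟩⟩
  unfold qq
  rw [Finset.sum_eq_single o]
  · have h1 := sg_sq (K := ℂ) N o
    intro h
    simp only [if_true, mul_one, Pi.star_apply, star_one] at h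
    rw [h, mul_zero] at h1
    exact zero_ne_one h1
  · intro i _ hi
    simp [hi]
  · intro h
    exact absurd (Finset.mem_univ _) h

theorem cont_GG (N : Finset κ) : Continuous fun z : TT N => GG N z.1 := by
  have hq : Continuous fun z : TT N => 2 / qq N z.1 (star z.1) :=
    continuous_const.div ((cont_qq N).comp continuous_subtype_val) fun z => z.2
  have hz : ∀ i, Continuous fun z : TT N => z.1 i := fun i => (continuous_apply i).comp continuous_subtype_val
  have h1 : ∀ i j, Continuous fun z : TT N => UU N z.1 i j := by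
    intro i j
    simp only [UU, Matrix.sub_apply, Matrix.smul_apply, smul_eq_mul, MM_apply, Pi.star_apply]
    exact (hq.mul (((hz i).mul ((hz j).star)).mul continuous_const)).sub continuous_const
  have h2 : ∀ i j, Continuous fun z : TT N => UV N z.1 i j := by
    intro i j
    simp only [UV, Matrix.sub_apply, Matrix.smul_apply, smul_eq_mul, MM_apply, Pi.star_apply]
    exact (hq.mul ((((hz i).star).mul (hz j)).mul continuous_const)).sub continuous_const
  unfold GG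
  refine (continuous_const.matrix_mul ?_).matrix_mul continuous_const
  refine continuous_matrix fun a b => ?_
  simp only [kroneckerMap_apply]
  exact (h1 _ _).mul (h2 _ _)

theorem ee_idem (N : Finset κ) : ee N * ee N = ee N := by
  apply toC_inj27
  have hk := card_ne κ
  rw [toC_mul, toC_ee, mul_sub, mul_one, sub_mul, one_mul, smul_mul_smul_comm, ZZ_mul_ZZ, smul_smul, mul_assoc,
    inv_mul_cancel₀ hk, mul_one, sub_self, sub_zero]

/-! ### traces -/

theorem ZZ_trace (N : Finset κ) : (ZZ ℂ N).trace = (Fintype.card κ : ℂ) := by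
  have h := hv_dot (K := ℂ) N
  rw [← h]
  simp only [ZZ, Matrix.trace, Matrix.diag, vecMulVec_apply, dotProduct]

theorem trace2 (N : Finset κ) : (R0 N 2).trace = (N.card : ℂ) * ((Fintype.card κ : ℂ) - N.card) := by
  rw [R0_two, Matrix.trace_kronecker, Matrix.trace_sub, EE_trace, Matrix.trace_one]

theorem trace0 (N : Finset κ) : (R0 N 0).trace = (N.card : ℂ) * ((Fintype.card κ : ℂ) - N.card) := by
  rw [R0_zero, Matrix.trace_kronecker, Matrix.trace_sub, EE_trace, Matrix.trace_one, mul_comm]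

theorem trace1 (N : Finset κ) : (R0 N 1).trace =
    (Fintype.card κ : ℂ) ^ 2 - 1 - 2 * ((N.card : ℂ) * ((Fintype.card κ : ℂ) - N.card)) := by
  have hk := card_ne κ
  have h2 := trace2 N
  have h0 := trace0 N
  rw [R0_two] at h2
  rw [R0_zero] at h0
  rw [R0_one, Matrix.trace_sub, Matrix.trace_sub, Matrix.trace_sub, h2, h0, Matrix.trace_smul, ZZ_trace,
    Matrix.trace_one, Fintype.card_prod, smul_eq_mul, inv_mul_cancel₀ hk]
  push_cast
  ring

/-! ### the linear map -/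

theorem conj_P (N : Finset κ) {z : κ → ℂ} (p : ℤ) : Ph κ * (GG N z * P0 N p * GG N z) * Phi' κ =
    (UU N z ⊗ₖ UV N z) * R0 N p * (UU N z ⊗ₖ UV N z) := by
  unfold GG P0
  calc Ph κ * (Phi' κ * (UU N z ⊗ₖ UV N z) * Ph κ * (Phi' κ * R0 N p * Ph κ) *
        (Phi' κ * (UU N z ⊗ₖ UV N z) * Ph κ)) * Phi' κ =
        (Ph κ * Phi' κ) * (UU N z ⊗ₖ UV N z) * (Ph κ * Phi' κ) * R0 N p * (Ph κ * Phi' κ) *
          (UU N z ⊗ₖ UV N z) * (Ph κ * Phi' κ) := by simp only [mul_assoc]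
    _ = _ := by simp only [Ph_mul, mul_one, one_mul]

/-- the difference of the extreme projections -/
noncomputable def hb (N : Finset κ) (z : κ → ℂ) : Matrix (κ × κ) (κ × κ) ℂ :=
  GG N z * P0 N 2 * GG N z - GG N z * P0 N 0 * GG N z

theorem hb_eq (N : Finset κ) {z : κ → ℂ} (hq : qq N z (star z) ≠ 0) : Ph κ * hb N z * Phi' κ =
    (UU N z * EE ℂ N * UU N z) ⊗ₖ (1 : Matrix κ κ ℂ) + (1 : Matrix κ κ ℂ) ⊗ₖ (-(UV N z * EE ℂ N * UV N z)) := by
  unfold hb
  rw [mul_sub, sub_mul, conj_P, conj_P, R0_two, R0_zero, ← Matrix.mul_kronecker_mul, ← Matrix.mul_kronecker_mul,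
    ← Matrix.mul_kronecker_mul, ← Matrix.mul_kronecker_mul]
  have e1 : UU N z * (1 - EE ℂ N) * UU N z = 1 - UU N z * EE ℂ N * UU N z := by
    rw [mul_sub, sub_mul, mul_one, UU_sq hq]
  have e2 : UV N z * (1 - EE ℂ N) * UV N z = 1 - UV N z * EE ℂ N * UV N z := by
    rw [mul_sub, sub_mul, mul_one, UV_sq hq]
  rw [e1, e2, kron_sub, sub_kron]
  have e3 : (1 : Matrix κ κ ℂ) ⊗ₖ (-(UV N z * EE ℂ N * UV N z)) = -((1 : Matrix κ κ ℂ) ⊗ₖ (UV N z * EE ℂ N * UV N z)) := by
    ext a b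
    simp [kroneckerMap_apply]
  rw [e3]
  abel

theorem UEU_trace (N : Finset κ) {z : κ → ℂ} (hq : qq N z (star z) ≠ 0) : (UU N z * EE ℂ N * UU N z).trace = N.card := by
  rw [Matrix.trace_mul_comm, ← mul_assoc, UU_sq hq, one_mul, EE_trace]

theorem VEV_trace (N : Finset κ) {z : κ → ℂ} (hq : qq N z (star z) ≠ 0) : (UV N z * EE ℂ N * UV N z).trace = N.card := by
  rw [Matrix.trace_mul_comm, ← mul_assoc, UV_sq hq, one_mul, EE_trace]

theorem FR_hb (N : Finset κ) {z : κ → ℂ} (hq : qq N z (star z) ≠ 0) : FR (hb N z) = (Fintype.card κ : ℂ) • hb N z := by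
  rw [FR_eq, hb_eq N hq, FF_val, UEU_trace N hq, Matrix.trace_neg, VEV_trace N hq, add_neg_cancel, zero_smul,
    add_zero, ← hb_eq N hq, mul_smul_comm, smul_mul_assoc, unconj]

theorem FR_br (N : Finset κ) {z : κ → ℂ} (hq : qq N z (star z) ≠ 0) (X : Matrix (κ × κ) (κ × κ) ℂ) :
    FR (hb N z * X - X * hb N z) = hb N z * FR X - FR X * hb N z := by
  rw [FR_eq, FR_eq, mul_sub, sub_mul, conj_mul, conj_mul, hb_eq N hq, FF_br, ← hb_eq N hq, mul_sub, sub_mul,
    conj_mul' (Ph κ * hb N z * Phi' κ), conj_mul' _ (Ph κ * hb N z * Phi' κ), unconj (hb N z)]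

/-! ### the final statement -/

open Module in
/-- The Hodge numbers `kl, k² + l² - 1, kl`. -/
theorem sharpKL (k l : ℕ) (hk : 2 ≤ k) (hl : 2 ≤ l) : ∃ (n : Type) (_ : Fintype n) (_ : DecidableEq n) (Q : Matrix n n ℚ)
    (P : ℤ → Matrix n n ℂ), IsHW 2 Q {0, 1, 2} P ∧
      (∀ A : Matrix n n ℚ, (∀ p, toC A * P p = P p * toC A) → ∃ c : ℚ, A = c • (1 : Matrix n n ℚ)) ∧
      (P 2).rank = k * l ∧ (P 1).rank + 1 = k ^ 2 + l ^ 2 ∧ (P 0).rank = k * l ∧
      ∃ g : GL n ℂ, IsGQ 2 Q g ∧ g ∉ MT {0, 1, 2} P := by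
  classical
  obtain ⟨N, hN⟩ : ∃ N : Finset (Fin k ⊕ Fin l), N = Finset.univ.map Function.Embedding.inl := ⟨_, rfl⟩
  have hin : ∀ i : Fin k, (Sum.inl i : Fin k ⊕ Fin l) ∈ N := fun i => by simp [hN]
  have hout : ∀ i : Fin l, (Sum.inr i : Fin k ⊕ Fin l) ∉ N := fun i => by simp [hN]
  have : Nonempty (Fin k ⊕ Fin l) := ⟨Sum.inl ⟨0, by omega⟩⟩
  have hcard : (Fintype.card (Fin k ⊕ Fin l) : ℂ) = (k : ℂ) + l := by simp
  have hNc : (N.card : ℂ) = k := by simp [hN]
  obtain ⟨B, C, hBC, hCB⟩ := SH94.exists_fact (ee_idem N)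
  have b1 : rcC B * rcC C = 1 := by
    rw [← rcC_mul, hBC]
    unfold rcC
    rw [Matrix.map_one _ (map_zero _) (map_one _)]
  have b2 : rcC C * rcC B = toC (ee N) := by
    rw [← rcC_mul, hCB]
    rfl
  have b3 : B * ee N = B := by
    have h1 : B * (C * B) = B * ee N := congrArg (B * ·) hCB
    rw [← h1, ← Matrix.mul_assoc, hBC, Matrix.one_mul]
  obtain ⟨z, hz⟩ := exists_generic27 (T := TT N)
    (fun t p => rcC B * (GG N t.1 * P0 N p * GG N t.1) * rcC C)
    (fun p => ((continuous_const.matrix_mul (((cont_GG N).matrix_mul continuous_const).matrix_mul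
      (cont_GG N))).matrix_mul continuous_const)) (by
    intro U hU hne A hA
    have hW : IsOpen (Subtype.val '' U : Set (Fin k ⊕ Fin l → ℂ)) := (isOpen_TT N).isOpenMap_subtype_val U hU
    obtain ⟨c, hc⟩ := end_big N (hin ⟨0, by omega⟩) (hin ⟨1, by omega⟩)
      (fun h => by have := congrArg Fin.val (Sum.inl_injective h); simp at this) (hout ⟨0, by omega⟩)
      (hout ⟨1, by omega⟩) (fun h => by have := congrArg Fin.val (Sum.inr_injective h); simp at this)
      (A := C * A * B) hW (hne.image _) (by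
      rintro _ ⟨t, _, rfl⟩
      exact t.2) (by
      rw [Matrix.mul_assoc, b3]) (by
      rintro _ ⟨t, ht, rfl⟩
      have H := fam_big (N := N) t.2
      have h1 := hA t ht 2
      have e1 : toC (C * A * B) = rcC C * toC A * rcC B := by
        change rcC (C * A * B) = _
        rw [rcC_mul, rcC_mul]
        rfl
      have h2 : GG N t.1 * P0 N 2 * GG N t.1 =
          rcC C * (rcC B * (GG N t.1 * P0 N 2 * GG N t.1) * rcC C) * rcC B := by
        calc GG N t.1 * P0 N 2 * GG N t.1 = toC (ee N) * (GG N t.1 * P0 N 2 * GG N t.1) * toC (ee N) := by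
              rw [H.e_mul 2, H.mul_e 2]
          _ = _ := by rw [← b2]; simp only [Matrix.mul_assoc]
      obtain ⟨Ps, hPs⟩ : ∃ Ps, rcC B * (GG N t.1 * P0 N 2 * GG N t.1) * rcC C = Ps := ⟨_, rfl⟩
      rw [hPs] at h1 h2
      rw [h2, e1]
      calc rcC C * toC A * rcC B * (rcC C * Ps * rcC B) = rcC C * (toC A * (rcC B * rcC C) * Ps) * rcC B := by
            simp only [Matrix.mul_assoc]
        _ = rcC C * (Ps * (rcC B * rcC C) * toC A) * rcC B := by
            rw [b1, Matrix.mul_one, Matrix.mul_one, h1]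
        _ = _ := by simp only [Matrix.mul_assoc])
    refine ⟨c, ?_⟩
    calc A = (B * C) * A * (B * C) := by rw [hBC, Matrix.one_mul, Matrix.mul_one]
      _ = B * (C * A * B) * C := by simp only [Matrix.mul_assoc]
      _ = c • (B * ee N * C) := by rw [hc, Matrix.mul_smul, Matrix.smul_mul]
      _ = c • 1 := by rw [b3, hBC])
  have hq := z.2
  have HB := fam_big (N := N) hq
  have H := HB.small hBC hCB
  have idm : ∀ p, (rcC B * (GG N z.1 * P0 N p * GG N z.1) * rcC C) *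
      (rcC B * (GG N z.1 * P0 N p * GG N z.1) * rcC C) = rcC B * (GG N z.1 * P0 N p * GG N z.1) * rcC C := by
    intro p
    have := H.mul p p
    rwa [if_pos rfl] at this
  have tr : ∀ p, (rcC B * (GG N z.1 * P0 N p * GG N z.1) * rcC C).trace = (R0 N p).trace := by
    intro p
    rw [Matrix.trace_mul_comm, ← Matrix.mul_assoc, b2, HB.e_mul p, Matrix.trace_mul_comm, ← Matrix.mul_assoc,
      GG_sq hq, Matrix.one_mul]
    unfold P0
    rw [Matrix.trace_mul_comm, ← Matrix.mul_assoc, Ph_mul, Matrix.one_mul]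
  have r2 : (rcC B * (GG N z.1 * P0 N 2 * GG N z.1) * rcC C).rank = k * l := by
    have h1 := trace_eq_rank (idm 2)
    rw [tr, trace2, hcard, hNc, add_sub_cancel_left] at h1
    exact_mod_cast h1.symm
  have r0 : (rcC B * (GG N z.1 * P0 N 0 * GG N z.1) * rcC C).rank = k * l := by
    have h1 := trace_eq_rank (idm 0)
    rw [tr, trace0, hcard, hNc, add_sub_cancel_left] at h1
    exact_mod_cast h1.symm
  have r1 : (rcC B * (GG N z.1 * P0 N 1 * GG N z.1) * rcC C).rank + 1 = k ^ 2 + l ^ 2 := by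
    have h1 := trace_eq_rank (idm 1)
    rw [tr, trace1, hcard, hNc, add_sub_cancel_left] at h1
    have h2 : (((rcC B * (GG N z.1 * P0 N 1 * GG N z.1) * rcC C).rank + 1 : ℕ) : ℂ) = ((k ^ 2 + l ^ 2 : ℕ) : ℂ) := by
      push_cast
      rw [← h1]
      ring
    exact_mod_cast h2
  refine ⟨Fin (ee N).rank, inferInstance, inferInstance, Cᵀ * QQ ℚ N * C, _, H, hz, r2, r1, r0, ?_⟩
  -- the linear map
  let F : Matrix (Fin (ee N).rank) (Fin (ee N).rank) ℂ →ₗ[ℂ] Matrix (Fin (ee N).rank) (Fin (ee N).rank) ℂ :=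
    { toFun := fun X => rcC B * FR (rcC C * X * rcC B) * rcC C
      map_add' := fun X Y => by
        rw [Matrix.mul_add, Matrix.add_mul, map_add, Matrix.mul_add, Matrix.add_mul]
      map_smul' := fun c X => by
        rw [Matrix.mul_smul, Matrix.smul_mul, map_smul, Matrix.mul_smul, Matrix.smul_mul, RingHom.id_apply] }
  have hFdef : ∀ X, F X = rcC B * FR (rcC C * X * rcC B) * rcC C := fun X => rfl
  let L2 : (Matrix (Fin k ⊕ Fin l) (Fin k ⊕ Fin l) ℂ × Matrix (Fin k ⊕ Fin l) (Fin k ⊕ Fin l) ℂ) →ₗ[ℂ]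
      Matrix (Fin (ee N).rank) (Fin (ee N).rank) ℂ :=
    { toFun := fun p => rcC B * (Phi' (Fin k ⊕ Fin l) * (p.1 ⊗ₖ 1 + 1 ⊗ₖ p.2) * Ph (Fin k ⊕ Fin l)) * rcC C
      map_add' := fun p q => by
        rw [Prod.fst_add, Prod.snd_add, Matrix.add_kronecker, Matrix.kronecker_add]
        have : p.1 ⊗ₖ (1 : Matrix (Fin k ⊕ Fin l) (Fin k ⊕ Fin l) ℂ) + q.1 ⊗ₖ 1 + (1 ⊗ₖ p.2 + 1 ⊗ₖ q.2) =
          (p.1 ⊗ₖ 1 + 1 ⊗ₖ p.2) + (q.1 ⊗ₖ 1 + 1 ⊗ₖ q.2) := by abel
        rw [this, mul_add, add_mul, Matrix.mul_add, Matrix.add_mul]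
      map_smul' := fun c p => by
        rw [Prod.smul_fst, Prod.smul_snd, Matrix.smul_kronecker, Matrix.kronecker_smul, ← smul_add, mul_smul_comm,
          smul_mul_assoc, Matrix.mul_smul, Matrix.smul_mul, RingHom.id_apply] }
  have hL2 : ∀ p, L2 p = rcC B * (Phi' (Fin k ⊕ Fin l) * (p.1 ⊗ₖ 1 + 1 ⊗ₖ p.2) * Ph (Fin k ⊕ Fin l)) * rcC C :=
    fun p => rfl
  have hle : LinearMap.range F ≤ LinearMap.range L2 := by
    rintro _ ⟨X, rfl⟩
    refine ⟨(ptr2 (Ph (Fin k ⊕ Fin l) * (rcC C * X * rcC B) * Phi' (Fin k ⊕ Fin l)),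
      ptr1 (Ph (Fin k ⊕ Fin l) * (rcC C * X * rcC B) * Phi' (Fin k ⊕ Fin l))), ?_⟩
    rw [hL2, hFdef, FR_eq]
    rfl
  have hfr : finrank ℂ (LinearMap.range F) < 2 * (k * l) *
      (rcC B * (GG N z.1 * P0 N 1 * GG N z.1) * rcC C).rank := by
    have h1 := Submodule.finrank_mono hle
    have h2 := LinearMap.finrank_range_le L2
    have h3 : finrank ℂ (Matrix (Fin k ⊕ Fin l) (Fin k ⊕ Fin l) ℂ × Matrix (Fin k ⊕ Fin l) (Fin k ⊕ Fin l) ℂ) =
        2 * (k + l) ^ 2 := by
      rw [finrank_prod, finrank_matrix, Fintype.card_sum, Fintype.card_fin, Fintype.card_fin, finrank_self]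
      ring
    rw [h3] at h2
    refine lt_of_le_of_lt (h1.trans h2) ?_
    obtain ⟨k, rfl⟩ := Nat.exists_eq_add_of_le hk
    obtain ⟨l, rfl⟩ := Nat.exists_eq_add_of_le hl
    obtain ⟨r, hr⟩ : ∃ r, r = (rcC B * (GG N z.1 * P0 N 1 * GG N z.1) * rcC C).rank := ⟨_, rfl⟩
    rw [← hr] at r1 ⊢
    have h5 : 2 * (2 + k + (2 + l)) ^ 2 < 2 * 4 * r := by
      nlinarith [sq_nonneg ((k : ℤ) - l)]
    have h6 : 4 ≤ (2 + k) * (2 + l) := by nlinarith
    nlinarith [Nat.mul_le_mul_right r (Nat.mul_le_mul_left 2 h6)]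
  have hh : rcC B * (GG N z.1 * P0 N 2 * GG N z.1) * rcC C - rcC B * (GG N z.1 * P0 N 0 * GG N z.1) * rcC C =
      rcC B * hb N z.1 * rcC C := by
    unfold hb
    rw [Matrix.mul_sub, Matrix.sub_mul]
  have ehb : toC (ee N) * hb N z.1 = hb N z.1 := by
    unfold hb
    rw [mul_sub, HB.e_mul 2, HB.e_mul 0]
  have hbe : hb N z.1 * toC (ee N) = hb N z.1 := by
    unfold hb
    rw [sub_mul, HB.mul_e 2, HB.mul_e 0]
  obtain ⟨g, hg1, hg2, hg3⟩ := SH94.exists_not_mem H F (fun A => by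
    refine ⟨B * FR (C * A * B) * C, ?_⟩
    rw [hFdef]
    change _ = rcC (B * FR (C * A * B) * C)
    rw [rcC_mul, rcC_mul]
    have e1 : rcC C * toC A * rcC B = toC (C * A * B) := by
      change _ = rcC (C * A * B)
      rw [rcC_mul, rcC_mul]
      rfl
    rw [e1, ← FR_map]
    rfl) (fun X => by
    simp only [hFdef]
    rw [hh]
    have e1 : rcC C * (rcC B * hb N z.1 * rcC C * X - X * (rcC B * hb N z.1 * rcC C)) * rcC B =
        hb N z.1 * (rcC C * X * rcC B) - (rcC C * X * rcC B) * hb N z.1 := by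
      rw [Matrix.mul_sub, Matrix.sub_mul]
      congr 1
      · calc rcC C * (rcC B * hb N z.1 * rcC C * X) * rcC B = ((rcC C * rcC B) * hb N z.1) * (rcC C * X * rcC B) := by
              simp only [Matrix.mul_assoc]
          _ = _ := by rw [b2, ehb]
      · calc rcC C * (X * (rcC B * hb N z.1 * rcC C)) * rcC B =
              (rcC C * X * rcC B) * (hb N z.1 * (rcC C * rcC B)) := by simp only [Matrix.mul_assoc]
          _ = _ := by rw [b2, hbe]
    rw [e1, FR_br N hq, Matrix.mul_sub, Matrix.sub_mul]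
    congr 1
    · calc rcC B * (hb N z.1 * FR (rcC C * X * rcC B)) * rcC C =
            rcC B * (hb N z.1 * toC (ee N)) * FR (rcC C * X * rcC B) * rcC C := by
              rw [hbe]; simp only [Matrix.mul_assoc]
        _ = _ := by rw [← b2]; simp only [Matrix.mul_assoc]
    · calc rcC B * (FR (rcC C * X * rcC B) * hb N z.1) * rcC C =
            rcC B * (FR (rcC C * X * rcC B) * (toC (ee N) * hb N z.1)) * rcC C := by
              rw [ehb]
        _ = _ := by rw [← b2]; simp only [Matrix.mul_assoc]) (card_ne (Fin k ⊕ Fin l)) (by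
    simp only [hFdef]
    rw [hh]
    have e1 : rcC C * (rcC B * hb N z.1 * rcC C) * rcC B = hb N z.1 := by
      calc rcC C * (rcC B * hb N z.1 * rcC C) * rcC B = (rcC C * rcC B) * hb N z.1 * (rcC C * rcC B) := by
            simp only [Matrix.mul_assoc]
        _ = _ := by rw [b2, ehb, hbe]
    rw [e1, FR_hb N hq, Matrix.mul_smul, Matrix.smul_mul]) (by
    rw [r2]
    exact hfr)
  refine ⟨g, ⟨1, fun h => absurd h (by norm_num), ?_, fun _ => ?_⟩, hg3⟩
  · rw [one_pow, one_smul]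
    exact hg1
  · rw [one_pow]
    exact hg2

end MH.Her27.UK

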