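import Pool.Agent.Helper27.PGN.Alg
import Pool.Agent.Helper27.PGN.Big

/-!
Project P1 (MP_b8862a_ag): the trace zero part of the Hermitian forms of the signature `(k, l)` over `ℚ(i)`.
The base point.
-/

set_option linter.unusedSectionVars false

open Matrix Kronecker

namespace MH.Her27.UK

variable {κ : Type*} [Fintype κ] [DecidableEq κ] [Nonempty κ]

section ring
variable {K : Type*} [CommRing K]

/-- the signs -/
def sg (K : Type*) [CommRing K] (N : Finset κ) (i : κ) : K := if i ∈ N then -1 else 1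

theorem sg_sq (N : Finset κ) (i : κ) : sg K N i * sg K N i = 1 := by
  unfold sg
  split_ifs <;> simp

/-- the matrix of the Hermitian form -/
def HH (K : Type*) [CommRing K] (N : Finset κ) : Matrix κ κ K := diagonal (sg K N)

theorem HH_mul_HH (N : Finset κ) : HH K N * HH K N = 1 := by
  unfold HH
  rw [Matrix.diagonal_mul_diagonal]
  simp only [sg_sq]
  exact Matrix.diagonal_one

theorem HH_transpose (N : Finset κ) : (HH K N)ᵀ = HH K N := Matrix.diagonal_transpose _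

theorem sg_map {L : Type*} [CommRing L] (f : K →+* L) (N : Finset κ) (i : κ) : f (sg K N i) = sg L N i := by
  unfold sg
  split_ifs <;> simp

theorem HH_map {L : Type*} [CommRing L] (f : K →+* L) (N : Finset κ) : (HH K N).map f = HH L N := by
  unfold HH
  rw [Matrix.diagonal_map (map_zero f)]
  congr 1
  funext i
  exact sg_map f N i

/-- the vector of the matrix `HH` -/
def hv (K : Type*) [CommRing K] (N : Finset κ) : κ × κ → K := fun a => HH K N a.1 a.2

theorem hv_apply (N : Finset κ) (a : κ × κ) : hv K N a = if a.1 = a.2 then sg K N a.1 else 0 := by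
  unfold hv HH
  rw [Matrix.diagonal_apply]

theorem kron_mulVec (A B M : Matrix κ κ K) :
    (A ⊗ₖ B) *ᵥ (fun a => M a.1 a.2) = fun a => (A * M * Bᵀ) a.1 a.2 := by
  funext a
  simp only [Matrix.mulVec, dotProduct, kroneckerMap_apply, Fintype.sum_prod_type, Matrix.mul_apply,
    Matrix.transpose_apply, Finset.sum_mul]
  rw [Finset.sum_comm]
  refine Finset.sum_congr rfl fun x _ => Finset.sum_congr rfl fun y _ => ?_
  ring

theorem hv_dot (N : Finset κ) : hv K N ⬝ᵥ hv K N = (Fintype.card κ : K) := by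
  simp only [dotProduct, hv_apply, Fintype.sum_prod_type, mul_ite, mul_zero, ite_mul, zero_mul]
  simp only [Finset.sum_ite_eq, Finset.mem_univ, if_true, sg_sq]
  simp

/-- the matrix `hv hvᵀ` -/
def ZZ (K : Type*) [CommRing K] (N : Finset κ) : Matrix (κ × κ) (κ × κ) K := vecMulVec (hv K N) (hv K N)

theorem ZZ_mul_ZZ (N : Finset κ) : ZZ K N * ZZ K N = (Fintype.card κ : K) • ZZ K N := by
  unfold ZZ
  rw [Matrix.vecMulVec_mul_vecMulVec, hv_dot]
  ext a b
  simp [vecMulVec_apply]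
  try ring

theorem ZZ_transpose (N : Finset κ) : (ZZ K N)ᵀ = ZZ K N := by
  ext a b
  simp only [ZZ, Matrix.transpose_apply, vecMulVec_apply]
  ring

/-- the polarisation in the big coordinates -/
def QQ (K : Type*) [CommRing K] (N : Finset κ) : Matrix (κ × κ) (κ × κ) K := HH K N ⊗ₖ HH K N

theorem QQ_transpose (N : Finset κ) : (QQ K N)ᵀ = QQ K N := by
  unfold QQ
  rw [← Matrix.kroneckerMap_transpose, HH_transpose]

theorem QQ_tau (N : Finset κ) : tau κ K * QQ K N = QQ K N * tau κ K := by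
  unfold QQ
  rw [tau_kron]

end ring

/-- the diagonal matrix `E` with one entry -/
def EE (K : Type*) [CommRing K] (N : Finset κ) : Matrix κ κ K := diagonal fun i => if i ∈ N then 1 else 0

theorem EE_sq {K : Type*} [CommRing K] (N : Finset κ) : EE K N * EE K N = EE K N := by
  unfold EE
  rw [Matrix.diagonal_mul_diagonal]
  congr 1
  funext i
  split_ifs <;> simp

theorem EE_trace {K : Type*} [CommRing K] (N : Finset κ) : (EE K N).trace = (N.card : K) := by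
  unfold EE
  rw [Matrix.trace_diagonal]
  simp

theorem EE_transpose {K : Type*} [CommRing K] (N : Finset κ) : (EE K N)ᵀ = EE K N := Matrix.diagonal_transpose _

theorem EE_conj (N : Finset κ) : (EE ℂ N).map (starRingEnd ℂ) = EE ℂ N := by
  unfold EE
  rw [Matrix.diagonal_map (map_zero _)]
  congr 1
  funext i
  simp only [apply_ite (starRingEnd ℂ), map_one, map_zero]

theorem EE_HH {K : Type*} [CommRing K] (N : Finset κ) : HH K N * EE K N = -EE K N := by
  unfold EE HH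
  rw [Matrix.diagonal_mul_diagonal, Matrix.diagonal_neg]
  congr 1
  funext i
  unfold sg
  split_ifs <;> simp

theorem EE_HH' {K : Type*} [CommRing K] (N : Finset κ) : EE K N * HH K N = -EE K N := by
  unfold EE HH
  rw [Matrix.diagonal_mul_diagonal, Matrix.diagonal_neg]
  congr 1
  funext i
  unfold sg
  split_ifs <;> simp

/-- the projections at the base point in the coordinates of the Hermitian matrices -/
noncomputable def R0 (N : Finset κ) (p : ℤ) : Matrix (κ × κ) (κ × κ) ℂ :=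
  if p = 2 then EE ℂ N ⊗ₖ (1 - EE ℂ N) else if p = 0 then (1 - EE ℂ N) ⊗ₖ EE ℂ N
  else if p = 1 then 1 - EE ℂ N ⊗ₖ (1 - EE ℂ N) - (1 - EE ℂ N) ⊗ₖ EE ℂ N - ((Fintype.card κ : ℂ)⁻¹) • ZZ ℂ N
  else 0

theorem R0_two (N : Finset κ) : R0 N 2 = EE ℂ N ⊗ₖ (1 - EE ℂ N) := if_pos rfl

theorem R0_zero (N : Finset κ) : R0 N 0 = (1 - EE ℂ N) ⊗ₖ EE ℂ N := by
  unfold R0
  rw [if_neg (by norm_num), if_pos rfl]

theorem R0_one (N : Finset κ) : R0 N 1 =
    1 - EE ℂ N ⊗ₖ (1 - EE ℂ N) - (1 - EE ℂ N) ⊗ₖ EE ℂ N - ((Fintype.card κ : ℂ)⁻¹) • ZZ ℂ N := by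
  unfold R0
  rw [if_neg (by norm_num), if_neg (by norm_num), if_pos rfl]

theorem R0_other (N : Finset κ) {p : ℤ} (h0 : p ≠ 0) (h1 : p ≠ 1) (h2 : p ≠ 2) : R0 N p = 0 := by
  unfold R0
  rw [if_neg h2, if_neg h0, if_neg h1]

theorem oneE (N : Finset κ) : (1 - EE ℂ N) * (1 - EE ℂ N) = 1 - EE ℂ N := by
  rw [mul_sub, sub_mul, one_mul, sub_mul, one_mul, EE_sq]
  simp

theorem oneE' (N : Finset κ) : EE ℂ N * (1 - EE ℂ N) = 0 := by
  rw [mul_sub, mul_one, EE_sq, sub_self]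

theorem oneE'' (N : Finset κ) : (1 - EE ℂ N) * EE ℂ N = 0 := by
  rw [sub_mul, one_mul, EE_sq, sub_self]

theorem kron_hv (A B : Matrix κ κ ℂ) (N : Finset κ) (h : A * HH ℂ N * Bᵀ = 0) : (A ⊗ₖ B) * ZZ ℂ N = 0 := by
  unfold ZZ
  rw [Matrix.mul_vecMulVec]
  have : (A ⊗ₖ B) *ᵥ hv ℂ N = 0 := by
    have e1 := kron_mulVec A B (HH ℂ N)
    rw [h] at e1
    exact e1
  rw [this]
  ext a b
  simp [vecMulVec_apply]

theorem hv_kron (A B : Matrix κ κ ℂ) (N : Finset κ) (h : Aᵀ * HH ℂ N * B = 0) : ZZ ℂ N * (A ⊗ₖ B) = 0 := by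
  have h1 : ((A ⊗ₖ B)ᵀ * ZZ ℂ N) = 0 := by
    rw [← Matrix.kroneckerMap_transpose]
    apply kron_hv
    rw [Matrix.transpose_transpose, h]
  have h2 := congrArg Matrix.transpose h1
  rw [Matrix.transpose_mul, ZZ_transpose, Matrix.transpose_transpose, Matrix.transpose_zero] at h2
  exact h2

theorem tau_ZZ {K : Type*} [CommRing K] (N : Finset κ) : tau κ K * ZZ K N = ZZ K N := by
  ext a b
  rw [tau_mul_apply]
  simp only [ZZ, vecMulVec_apply, hv_apply]
  by_cases h : a.1 = a.2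
  · rw [if_pos h.symm, if_pos h, h]
  · rw [if_neg (Ne.symm h), if_neg h]

theorem ZZ_tau {K : Type*} [CommRing K] (N : Finset κ) : ZZ K N * tau κ K = ZZ K N := by
  have h := congrArg Matrix.transpose (tau_ZZ (K := K) N)
  rwa [Matrix.transpose_mul, ZZ_transpose, tau_transpose] at h

theorem Ph_ZZ (N : Finset κ) : Ph κ * ZZ ℂ N = ZZ ℂ N := by
  unfold Ph
  rw [add_mul, smul_mul_assoc, smul_mul_assoc, one_mul, tau_ZZ, ← add_smul, al_add_be, one_smul]

theorem ZZ_Ph (N : Finset κ) : ZZ ℂ N * Ph κ = ZZ ℂ N := by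
  unfold Ph
  rw [mul_add, mul_smul_comm, mul_smul_comm, mul_one, ZZ_tau, ← add_smul, al_add_be, one_smul]

theorem Phi'_ZZ (N : Finset κ) : Phi' κ * ZZ ℂ N = ZZ ℂ N := by
  conv_lhs => rw [← Ph_ZZ N]
  rw [← mul_assoc, Phi'_mul, one_mul]

theorem hE (N : Finset κ) : (1 - EE ℂ N) * HH ℂ N * (EE ℂ N)ᵀ = 0 := by
  rw [EE_transpose, mul_assoc, EE_HH, mul_neg, oneE'', neg_zero]

theorem hE' (N : Finset κ) : EE ℂ N * HH ℂ N * (1 - EE ℂ N)ᵀ = 0 := by
  rw [Matrix.transpose_sub, Matrix.transpose_one, EE_transpose, EE_HH', neg_mul, oneE', neg_zero]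

theorem hE1 (N : Finset κ) : (1 - EE ℂ N)ᵀ * HH ℂ N * (EE ℂ N) = 0 := by
  rw [Matrix.transpose_sub, Matrix.transpose_one, EE_transpose, mul_assoc, EE_HH, mul_neg, oneE'', neg_zero]

theorem hE1' (N : Finset κ) : (EE ℂ N)ᵀ * HH ℂ N * (1 - EE ℂ N) = 0 := by
  rw [EE_transpose, EE_HH', neg_mul, oneE', neg_zero]

theorem R0_mul (N : Finset κ) (p q : ℤ) : R0 N p * R0 N q = if p = q then R0 N p else 0 := by
  have hk : (Fintype.card κ : ℂ) ≠ 0 := by
    have : 0 < Fintype.card κ := Fintype.card_pos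
    exact_mod_cast this.ne'
  have a22 : (EE ℂ N ⊗ₖ (1 - EE ℂ N)) * (EE ℂ N ⊗ₖ (1 - EE ℂ N)) = EE ℂ N ⊗ₖ (1 - EE ℂ N) := by
    rw [← Matrix.mul_kronecker_mul, EE_sq, oneE]
  have a00 : ((1 - EE ℂ N) ⊗ₖ EE ℂ N) * ((1 - EE ℂ N) ⊗ₖ EE ℂ N) = (1 - EE ℂ N) ⊗ₖ EE ℂ N := by
    rw [← Matrix.mul_kronecker_mul, EE_sq, oneE]
  have a20 : (EE ℂ N ⊗ₖ (1 - EE ℂ N)) * ((1 - EE ℂ N) ⊗ₖ EE ℂ N) = 0 := by
    rw [← Matrix.mul_kronecker_mul, oneE', Matrix.zero_kronecker]
  have a02 : ((1 - EE ℂ N) ⊗ₖ EE ℂ N) * (EE ℂ N ⊗ₖ (1 - EE ℂ N)) = 0 := by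
    rw [← Matrix.mul_kronecker_mul, oneE'', Matrix.zero_kronecker]
  have a2z := kron_hv _ _ N (hE' N)
  have a0z := kron_hv _ _ N (hE N)
  have z2 := hv_kron _ _ N (hE1' N)
  have z0 := hv_kron _ _ N (hE1 N)
  have zz := ZZ_mul_ZZ (K := ℂ) N
  by_cases p0 : p = 0
  · subst p0
    by_cases q0 : q = 0
    · subst q0
      rw [if_pos rfl, R0_zero, a00]
    rw [if_neg (Ne.symm q0)]
    by_cases q1 : q = 1
    · subst q1
      rw [R0_zero, R0_one, mul_sub, mul_sub, mul_sub, mul_one, a02, a00, mul_smul_comm, a0z]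
      simp
    by_cases q2 : q = 2
    · subst q2
      rw [R0_zero, R0_two, a02]
    rw [R0_other N q0 q1 q2, mul_zero]
  by_cases p1 : p = 1
  · subst p1
    by_cases q0 : q = 0
    · subst q0
      rw [R0_zero, R0_one, sub_mul, sub_mul, sub_mul, one_mul, a20, a00, smul_mul_assoc, z0]
      simp
    by_cases q1 : q = 1
    · subst q1
      rw [if_pos rfl, R0_one, mul_sub, mul_sub, mul_sub, mul_one, sub_mul, sub_mul, sub_mul, one_mul, a22, a02,
        sub_mul, sub_mul, sub_mul, one_mul, a20, a00, mul_smul_comm, sub_mul, sub_mul, sub_mul, one_mul,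
        smul_mul_assoc, smul_mul_assoc, smul_mul_assoc, a2z, a0z, z2, z0, zz, smul_smul, inv_mul_cancel₀ hk]
      simp
    rw [if_neg (Ne.symm q1)]
    by_cases q2 : q = 2
    · subst q2
      rw [R0_two, R0_one, sub_mul, sub_mul, sub_mul, one_mul, a22, a02, smul_mul_assoc, z2]
      simp
    rw [R0_other N q0 q1 q2, mul_zero]
  by_cases p2 : p = 2
  · subst p2
    by_cases q0 : q = 0
    · subst q0
      rw [R0_two, R0_zero, a20]
      simp
    by_cases q1 : q = 1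
    · subst q1
      rw [R0_two, R0_one, mul_sub, mul_sub, mul_sub, mul_one, a22, a20, mul_smul_comm, a2z]
      simp
    by_cases q2 : q = 2
    · subst q2
      rw [if_pos rfl, R0_two, a22]
    rw [if_neg (Ne.symm q2), R0_other N q0 q1 q2, mul_zero]
  rw [R0_other N p0 p1 p2, zero_mul]
  split_ifs <;> rfl

theorem R0_tau (N : Finset κ) (p : ℤ) : tau κ ℂ * R0 N p * tau κ ℂ = R0 N (2 - p) := by
  by_cases p0 : p = 0
  · subst p0
    rw [R0_zero, tau_kron_tau, sub_zero, R0_two]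
  by_cases p1 : p = 1
  · subst p1
    rw [show (2 : ℤ) - 1 = 1 by norm_num, R0_one, mul_sub, mul_sub, mul_sub, sub_mul, sub_mul, sub_mul, tau_kron_tau,
      tau_kron_tau, mul_one, tau_mul_tau, mul_smul_comm, smul_mul_assoc, tau_ZZ, ZZ_tau]
    abel
  by_cases p2 : p = 2
  · subst p2
    rw [R0_two, tau_kron_tau, sub_self, R0_zero]
  rw [R0_other N p0 p1 p2, R0_other N (by omega) (by omega) (by omega)]
  simp

theorem map_kron (A B : Matrix κ κ ℂ) :
    (A ⊗ₖ B).map (starRingEnd ℂ) = (A.map (starRingEnd ℂ)) ⊗ₖ (B.map (starRingEnd ℂ)) := by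
  ext a b
  simp [kroneckerMap_apply]

theorem oneE_conj (N : Finset κ) : (1 - EE ℂ N).map (starRingEnd ℂ) = 1 - EE ℂ N := by
  have h := EE_conj N
  ext i j
  have h1 := congrFun (congrFun h i) j
  rw [Matrix.map_apply] at h1
  rw [Matrix.map_apply, Matrix.sub_apply, map_sub, h1]
  congr 1
  simp only [Matrix.one_apply, apply_ite (starRingEnd ℂ), map_one, map_zero]

theorem ZZ_conj (N : Finset κ) : (ZZ ℂ N).map (starRingEnd ℂ) = ZZ ℂ N := by
  ext a b
  simp only [ZZ, Matrix.map_apply, vecMulVec_apply, map_mul, hv_apply, apply_ite (starRingEnd ℂ), map_zero]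
  simp only [sg, apply_ite (starRingEnd ℂ), map_neg, map_one]

theorem R0_conj (N : Finset κ) (p : ℤ) : (R0 N p).map (starRingEnd ℂ) = R0 N p := by
  by_cases p0 : p = 0
  · subst p0
    rw [R0_zero, map_kron, EE_conj, oneE_conj]
  by_cases p1 : p = 1
  · subst p1
    have e2 : (EE ℂ N ⊗ₖ (1 - EE ℂ N)).map (starRingEnd ℂ) = EE ℂ N ⊗ₖ (1 - EE ℂ N) := by
      rw [map_kron, EE_conj, oneE_conj]
    have e0 : ((1 - EE ℂ N) ⊗ₖ EE ℂ N).map (starRingEnd ℂ) = (1 - EE ℂ N) ⊗ₖ EE ℂ N := by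
      rw [map_kron, EE_conj, oneE_conj]
    have ez := ZZ_conj N
    rw [R0_one]
    ext a b
    have f2 := congrFun (congrFun e2 a) b
    have f0 := congrFun (congrFun e0 a) b
    have fz := congrFun (congrFun ez a) b
    rw [Matrix.map_apply] at f2 f0 fz
    simp only [Matrix.map_apply, Matrix.sub_apply, Matrix.smul_apply, map_sub, smul_eq_mul, map_mul, f2, f0, fz,
      map_inv₀, map_natCast]
    congr 3
    simp only [Matrix.one_apply, apply_ite (starRingEnd ℂ), map_one, map_zero]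
  by_cases p2 : p = 2
  · subst p2
    rw [R0_two, map_kron, EE_conj, oneE_conj]
  rw [R0_other N p0 p1 p2]
  ext a b
  simp

/-- the rational idempotent -/
noncomputable def ee (N : Finset κ) : Matrix (κ × κ) (κ × κ) ℚ := 1 - ((Fintype.card κ : ℚ)⁻¹) • ZZ ℚ N

theorem toC_ZZ (N : Finset κ) : toC (ZZ ℚ N) = ZZ ℂ N := by
  ext a b
  simp only [toC, ZZ, Matrix.map_apply, vecMulVec_apply, map_mul, hv_apply, apply_ite (algebraMap ℚ ℂ), map_zero,
    sg_map]

theorem toC_QQ (N : Finset κ) : toC (QQ ℚ N) = QQ ℂ N := by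
  ext a b
  have h := HH_map (algebraMap ℚ ℂ) N
  have h1 : ∀ i j, algebraMap ℚ ℂ (HH ℚ N i j) = HH ℂ N i j := fun i j => congrFun (congrFun h i) j
  simp only [toC, QQ, Matrix.map_apply, kroneckerMap_apply, map_mul, h1]

theorem toC_ee (N : Finset κ) : toC (ee N) = 1 - ((Fintype.card κ : ℂ)⁻¹) • ZZ ℂ N := by
  rw [← toC_ZZ]
  ext a b
  simp only [toC, ee, Matrix.map_apply, Matrix.sub_apply, Matrix.smul_apply, smul_eq_mul, map_sub, map_mul, map_inv₀,
    map_natCast, Matrix.one_apply, apply_ite (algebraMap ℚ ℂ), map_one, map_zero]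

theorem R0_sum (N : Finset κ) : R0 N 0 + R0 N 1 + R0 N 2 = 1 - ((Fintype.card κ : ℂ)⁻¹) • ZZ ℂ N := by
  rw [R0_zero, R0_one, R0_two]
  abel

theorem QQ_mul_R0 (N : Finset κ) (p : ℤ) : QQ ℂ N * R0 N p = R0 N p * QQ ℂ N := by
  have c : (1 - EE ℂ N) * HH ℂ N = HH ℂ N * (1 - EE ℂ N) := by
    rw [sub_mul, mul_sub, one_mul, mul_one, EE_HH, EE_HH']
  have c' : EE ℂ N * HH ℂ N = HH ℂ N * EE ℂ N := by
    rw [EE_HH, EE_HH']
  have e2 : QQ ℂ N * (EE ℂ N ⊗ₖ (1 - EE ℂ N)) = (EE ℂ N ⊗ₖ (1 - EE ℂ N)) * QQ ℂ N := by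
    unfold QQ
    rw [← Matrix.mul_kronecker_mul, ← Matrix.mul_kronecker_mul, c, c']
  have e0 : QQ ℂ N * ((1 - EE ℂ N) ⊗ₖ EE ℂ N) = ((1 - EE ℂ N) ⊗ₖ EE ℂ N) * QQ ℂ N := by
    unfold QQ
    rw [← Matrix.mul_kronecker_mul, ← Matrix.mul_kronecker_mul, c, c']
  have ez : QQ ℂ N * ZZ ℂ N = ZZ ℂ N * QQ ℂ N := by
    have h1 : QQ ℂ N * ZZ ℂ N = ZZ ℂ N := by
      unfold ZZ QQ
      rw [Matrix.mul_vecMulVec]
      congr 1
      have := kron_mulVec (HH ℂ N) (HH ℂ N) (HH ℂ N)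
      rw [HH_transpose, HH_mul_HH, one_mul] at this
      exact this
    have h2 := congrArg Matrix.transpose h1
    rw [Matrix.transpose_mul, ZZ_transpose, QQ_transpose] at h2
    rw [h1, h2]
  by_cases p0 : p = 0
  · subst p0
    rw [R0_zero, e0]
  by_cases p1 : p = 1
  · subst p1
    rw [R0_one, mul_sub, mul_sub, mul_sub, sub_mul, sub_mul, sub_mul, e2, e0, mul_one, one_mul, mul_smul_comm,
      smul_mul_assoc, ez]
  by_cases p2 : p = 2
  · subst p2
    rw [R0_two, e2]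
  rw [R0_other N p0 p1 p2]
  simp

theorem R0_transpose (N : Finset κ) (p : ℤ) : (R0 N p)ᵀ = R0 N p := by
  have e1 : (1 - EE ℂ N)ᵀ = 1 - EE ℂ N := by
    rw [Matrix.transpose_sub, Matrix.transpose_one, EE_transpose]
  by_cases p0 : p = 0
  · subst p0
    rw [R0_zero, ← Matrix.kroneckerMap_transpose, e1, EE_transpose]
  by_cases p1 : p = 1
  · subst p1
    rw [R0_one, Matrix.transpose_sub, Matrix.transpose_sub, Matrix.transpose_sub, Matrix.transpose_one,
      ← Matrix.kroneckerMap_transpose, ← Matrix.kroneckerMap_transpose, e1, EE_transpose, Matrix.transpose_smul,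
      ZZ_transpose]
  by_cases p2 : p = 2
  · subst p2
    rw [R0_two, ← Matrix.kroneckerMap_transpose, e1, EE_transpose]
  rw [R0_other N p0 p1 p2]
  simp

theorem QQ_Ph (N : Finset κ) : QQ ℂ N * Ph κ = Ph κ * QQ ℂ N := by
  unfold Ph
  rw [mul_add, add_mul, mul_smul_comm, mul_smul_comm, smul_mul_assoc, smul_mul_assoc, QQ_tau, mul_one, one_mul]

theorem QQ_Phi' (N : Finset κ) : QQ ℂ N * Phi' κ = Phi' κ * QQ ℂ N := by
  unfold Phi'
  rw [mul_add, add_mul, mul_smul_comm, mul_smul_comm, smul_mul_assoc, smul_mul_assoc, QQ_tau, mul_one, one_mul]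

theorem Phi'_Phi' : Phi' κ * Phi' κ = tau κ ℂ := by
  calc Phi' κ * Phi' κ = Phi' κ * (Ph κ * tau κ ℂ) := by rw [Ph_tau]
    _ = tau κ ℂ := by rw [← mul_assoc, Phi'_mul, one_mul]

/-- the projections at the base point -/
noncomputable def P0 (N : Finset κ) (p : ℤ) : Matrix (κ × κ) (κ × κ) ℂ := Phi' κ * R0 N p * Ph κ

theorem Ph_mulVec_star (y : κ × κ → ℂ) : star (Phi' κ *ᵥ y) = Ph κ *ᵥ star y := by
  funext i
  simp only [Pi.star_apply, Matrix.mulVec, dotProduct, star_sum, star_mul']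
  refine Finset.sum_congr rfl fun j _ => ?_
  congr 1
  have h1 := congrFun (congrFun (Phi'_conj κ) i) j
  rwa [Matrix.map_apply, starRingEnd_apply] at h1

theorem QQ_mulVec (N : Finset κ) (y : κ × κ → ℂ) : QQ ℂ N *ᵥ y = fun a => sg ℂ N a.1 * sg ℂ N a.2 * y a := by
  funext a
  unfold QQ HH
  rw [Matrix.diagonal_kronecker_diagonal, Matrix.mulVec_diagonal]

theorem form_eq (N : Finset κ) (y : κ × κ → ℂ) :
    y ⬝ᵥ (QQ ℂ N *ᵥ star y) = ((∑ a : κ × κ, (sg ℝ N a.1 * sg ℝ N a.2) * ‖y a‖ ^ 2 : ℝ) : ℂ) := by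
  rw [QQ_mulVec]
  simp only [dotProduct, Pi.star_apply]
  push_cast
  refine Finset.sum_congr rfl fun a _ => ?_
  have h1 : ∀ i, ((sg ℝ N i : ℝ) : ℂ) = sg ℂ N i := fun i => by
    unfold sg
    split_ifs <;> simp
  rw [h1, h1, ← Complex.mul_conj', Complex.star_def]
  ring

theorem base_pos (N : Finset κ) (p : ℤ) (v : κ × κ → ℂ) (hv : P0 N p *ᵥ v = v) (hv0 : v ≠ 0) :
    0 < (Complex.I ^ (2 * p - 2) * (v ⬝ᵥ (toC (QQ ℚ N) *ᵥ star v))).re := by
  obtain ⟨y, hy⟩ : ∃ y, Ph κ *ᵥ v = y := ⟨_, rfl⟩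
  have e1 : v = Phi' κ *ᵥ y := by rw [← hy, Matrix.mulVec_mulVec, Phi'_mul, Matrix.one_mulVec]
  have e2 : R0 N p *ᵥ y = y := by
    have h1 : Ph κ *ᵥ (P0 N p *ᵥ v) = y := by rw [hv, hy]
    rw [Matrix.mulVec_mulVec] at h1
    unfold P0 at h1
    rw [← mul_assoc, ← mul_assoc, Ph_mul, one_mul, ← Matrix.mulVec_mulVec, hy] at h1
    exact h1
  have e3 : y ≠ 0 := by
    intro h
    rw [h, Matrix.mulVec_zero] at e1
    exact hv0 e1
  have e4 : v ⬝ᵥ (toC (QQ ℚ N) *ᵥ star v) = y ⬝ᵥ (QQ ℂ N *ᵥ star y) := by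
    rw [e1, Ph_mulVec_star, toC_QQ, ← Matrix.vecMul_transpose (Phi' κ) y, ← Matrix.dotProduct_mulVec,
      Matrix.mulVec_mulVec, Matrix.mulVec_mulVec, Phi'_transpose, mul_assoc, QQ_Ph, ← mul_assoc, Phi'_mul, one_mul]
  rw [e4, form_eq]
  obtain ⟨b, hb⟩ : ∃ b, y b ≠ 0 := by
    by_contra hcon
    push Not at hcon
    exact e3 (funext hcon)
  have hpos : 0 < ∑ a : κ × κ, ‖y a‖ ^ 2 := by
    apply Finset.sum_pos' (fun a _ => by positivity)
    exact ⟨b, Finset.mem_univ _, by positivity⟩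
  have hE1 : ∀ a : κ × κ, (EE ℂ N ⊗ₖ (1 - EE ℂ N)) a a = if a.1 ∈ N ∧ a.2 ∉ N then 1 else 0 := by
    intro a
    simp only [kroneckerMap_apply, EE, Matrix.sub_apply, Matrix.diagonal_apply_eq, Matrix.one_apply_eq]
    by_cases h1 : a.1 ∈ N <;> by_cases h2 : a.2 ∈ N <;> simp [h1, h2]
  have hd2 : (EE ℂ N ⊗ₖ (1 - EE ℂ N)) = diagonal fun a : κ × κ => if a.1 ∈ N ∧ a.2 ∉ N then (1 : ℂ) else 0 := by
    unfold EE
    rw [← Matrix.diagonal_one, Matrix.diagonal_sub, Matrix.diagonal_kronecker_diagonal]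
    congr 1
    funext a
    by_cases h1 : a.1 ∈ N <;> by_cases h2 : a.2 ∈ N <;> simp [h1, h2]
  have hd0 : ((1 - EE ℂ N) ⊗ₖ EE ℂ N) = diagonal fun a : κ × κ => if a.1 ∉ N ∧ a.2 ∈ N then (1 : ℂ) else 0 := by
    unfold EE
    rw [← Matrix.diagonal_one, Matrix.diagonal_sub, Matrix.diagonal_kronecker_diagonal]
    congr 1
    funext a
    by_cases h1 : a.1 ∈ N <;> by_cases h2 : a.2 ∈ N <;> simp [h1, h2]
  -- the sign on the support
  by_cases p2 : p = 2
  · subst p2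
    rw [R0_two, hd2] at e2
    have e5 : ∀ a : κ × κ, (sg ℝ N a.1 * sg ℝ N a.2) * ‖y a‖ ^ 2 = -‖y a‖ ^ 2 := by
      intro a
      have h := congrFun e2 a
      rw [Matrix.mulVec_diagonal] at h
      by_cases h1 : a.1 ∈ N ∧ a.2 ∉ N
      · simp [sg, h1.1, h1.2]
      · rw [if_neg h1, zero_mul] at h
        rw [← h]
        simp
    simp only [e5]
    rw [Finset.sum_neg_distrib, show (2 : ℤ) * 2 - 2 = 2 by norm_num]
    rw [show (Complex.I ^ (2 : ℤ)) = -1 by
      rw [show (2 : ℤ) = ((2 : ℕ) : ℤ) by norm_num, zpow_natCast, Complex.I_sq]]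
    rw [← Complex.ofReal_one, ← Complex.ofReal_neg, ← Complex.ofReal_mul, Complex.ofReal_re]
    linarith
  by_cases p0 : p = 0
  · subst p0
    rw [R0_zero, hd0] at e2
    have e5 : ∀ a : κ × κ, (sg ℝ N a.1 * sg ℝ N a.2) * ‖y a‖ ^ 2 = -‖y a‖ ^ 2 := by
      intro a
      have h := congrFun e2 a
      rw [Matrix.mulVec_diagonal] at h
      by_cases h1 : a.1 ∉ N ∧ a.2 ∈ N
      · simp [sg, h1.1, h1.2]
      · rw [if_neg h1, zero_mul] at h
        rw [← h]
        simp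
    simp only [e5]
    rw [Finset.sum_neg_distrib, show (2 : ℤ) * 0 - 2 = -2 by norm_num]
    rw [show (Complex.I ^ (-2 : ℤ)) = -1 by
      rw [_root_.zpow_neg, show (2 : ℤ) = ((2 : ℕ) : ℤ) by norm_num, zpow_natCast, Complex.I_sq]; norm_num]
    rw [← Complex.ofReal_one, ← Complex.ofReal_neg, ← Complex.ofReal_mul, Complex.ofReal_re]
    linarith
  by_cases p1 : p = 1
  · subst p1
    have f2 : R0 N 2 *ᵥ y = 0 := by
      rw [← e2, Matrix.mulVec_mulVec, R0_mul, if_neg (by norm_num), Matrix.zero_mulVec]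
    have f0 : R0 N 0 *ᵥ y = 0 := by
      rw [← e2, Matrix.mulVec_mulVec, R0_mul, if_neg (by norm_num), Matrix.zero_mulVec]
    rw [R0_two, hd2] at f2
    rw [R0_zero, hd0] at f0
    have e5 : ∀ a : κ × κ, (sg ℝ N a.1 * sg ℝ N a.2) * ‖y a‖ ^ 2 = ‖y a‖ ^ 2 := by
      intro a
      have g2 := congrFun f2 a
      have g0 := congrFun f0 a
      rw [Matrix.mulVec_diagonal] at g2 g0
      by_cases h1 : a.1 ∈ N <;> by_cases h2 : a.2 ∈ N
      · simp [sg, h1, h2]
      · simp only [h1, h2, not_false_eq_true, and_self, if_true, one_mul, Pi.zero_apply] at g2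
        rw [g2]
        simp
      · simp only [h1, h2, not_false_eq_true, and_self, if_true, one_mul, Pi.zero_apply] at g0
        rw [g0]
        simp
      · simp [sg, h1, h2]
    simp only [e5]
    rw [show (2 : ℤ) * 1 - 2 = 0 by norm_num, zpow_zero, one_mul, Complex.ofReal_re]
    exact hpos
  exfalso
  rw [R0_other N p0 p1 p2, Matrix.zero_mulVec] at e2
  exact e3 e2.symm

/-- the base point -/
theorem base_big (N : Finset κ) : BigHW27 (QQ ℚ N) (ee N) (P0 N) := by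
  refine ⟨fun p q => ?_, fun p hp => ?_, ?_, fun p => ?_, QQ_transpose N, fun p q hpq => ?_, base_pos N⟩
  · unfold P0
    have e1 : Phi' κ * R0 N p * Ph κ * (Phi' κ * R0 N q * Ph κ) = Phi' κ * (R0 N p * R0 N q) * Ph κ := by
      calc Phi' κ * R0 N p * Ph κ * (Phi' κ * R0 N q * Ph κ) =
            Phi' κ * R0 N p * (Ph κ * Phi' κ) * R0 N q * Ph κ := by simp only [mul_assoc]
        _ = _ := by rw [Ph_mul, mul_one]; simp only [mul_assoc]
    rw [e1, R0_mul]
    split_ifs <;> simp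
  · simp only [Finset.mem_insert, Finset.mem_singleton, not_or] at hp
    unfold P0
    rw [R0_other N hp.1 hp.2.1 hp.2.2]
    simp
  · rw [Finset.sum_insert (by simp), Finset.sum_insert (by simp), Finset.sum_singleton]
    unfold P0
    rw [← add_mul, ← mul_add, ← add_mul, ← mul_add, ← add_assoc, R0_sum, toC_ee, mul_sub, sub_mul, mul_one, Phi'_mul,
      mul_smul_comm, smul_mul_assoc, Phi'_ZZ, ZZ_Ph]
  · unfold P0
    rw [Matrix.map_mul, Matrix.map_mul, Phi'_conj, Ph_conj, R0_conj, ← R0_tau]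
    have e1 : Phi' κ * (tau κ ℂ * R0 N p * tau κ ℂ) * Ph κ = (Phi' κ * tau κ ℂ) * R0 N p * (tau κ ℂ * Ph κ) := by
      simp only [mul_assoc]
    have e2 : Phi' κ * tau κ ℂ = Ph κ := by
      rw [← Ph_tau, mul_assoc, tau_mul_tau, mul_one]
    rw [e1, e2, tau_Ph]
  · unfold P0
    have e1 : (Phi' κ * R0 N p * Ph κ)ᵀ * toC (QQ ℚ N) * (Phi' κ * R0 N q * Ph κ) =
        Ph κ * (R0 N p * (Phi' κ * QQ ℂ N * Phi' κ) * R0 N q) * Ph κ := by
      rw [toC_QQ, Matrix.transpose_mul, Matrix.transpose_mul, Ph_transpose, Phi'_transpose, R0_transpose]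
      simp only [mul_assoc]
    have e2 : Phi' κ * QQ ℂ N * Phi' κ = QQ ℂ N * tau κ ℂ := by
      rw [← QQ_Phi', mul_assoc, Phi'_Phi']
    have e3 : R0 N p * (QQ ℂ N * tau κ ℂ) * R0 N q = QQ ℂ N * (R0 N p * (tau κ ℂ * R0 N q * tau κ ℂ)) * tau κ ℂ := by
      rw [← mul_assoc, ← QQ_mul_R0]
      simp only [mul_assoc, tau_mul_tau, mul_one]
    rw [e1, e2, e3, R0_tau, R0_mul, if_neg (by omega)]
    simp

end MH.Her27.UK
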