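import Pool.Agent.Helper27.PGK.Fin
import Pool.Agent.Helper98.PGN.Ten2
import Pool.Agent.Helper24.PGN.GQ

/-!
Project AG (MP_b8862a_ag), construction C1: the Hodge numbers `kl, k² + l² - 1, kl` for all `k, l ≥ 1`, `kl ≥ 2`.
-/

open Matrix

namespace MH

/-- CONSTRUCTION C1 -/
theorem sharp_unitary (k l : ℕ) (hk : 1 ≤ k) (hl : 1 ≤ l) (hkl : 2 ≤ k * l) :
    ∃ (n : Type) (_ : Fintype n) (_ : DecidableEq n) (Q : Matrix n n ℚ) (P : ℤ → Matrix n n ℂ), IsHW 2 Q {0, 1, 2} P ∧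
      (∀ A : Matrix n n ℚ, (∀ p, toC A * P p = P p * toC A) → ∃ c : ℚ, A = c • (1 : Matrix n n ℚ)) ∧
      (P 2).rank = k * l ∧ (P 1).rank + 1 = k ^ 2 + l ^ 2 ∧ ∃ g : GL n ℂ, IsGQ 2 Q g ∧ g ∉ MT {0, 1, 2} P := by
  have key : ∀ s : ℕ, 2 ≤ s →
      ∃ (n : Type) (_ : Fintype n) (_ : DecidableEq n) (Q : Matrix n n ℚ) (P : ℤ → Matrix n n ℂ),
        IsHW 2 Q {0, 1, 2} P ∧
        (∀ A : Matrix n n ℚ, (∀ p, toC A * P p = P p * toC A) → ∃ c : ℚ, A = c • (1 : Matrix n n ℚ)) ∧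
        (P 2).rank = s ∧ (P 1).rank = s ^ 2 ∧ ∃ g : GL n ℂ, IsGQ 2 Q g ∧ g ∉ MT {0, 1, 2} P := by
    intro s hs
    rcases (show s = 2 ∨ 3 ≤ s by omega) with rfl | h3
    · obtain ⟨n, i1, i2, Q, P, H, hEnd, r2, r1, -, g, g1, g2, g3⟩ := PG98.sharp_two_s 2 le_rfl
      exact ⟨n, i1, i2, Q, P, H, hEnd, r2, r1, g, isGQ_of24 g1 g2, g3⟩
    · obtain ⟨n, i1, i2, Q, P, H, hEnd, r2, r1, -, hg⟩ := Her27.sharp s h3
      exact ⟨n, i1, i2, Q, P, H, hEnd, r2, r1, hg⟩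
  rcases (show l = 1 ∨ 2 ≤ l by omega) with rfl | hl2
  · obtain ⟨n, i1, i2, Q, P, H, hEnd, r2, r1, hg⟩ := key k (by omega)
    exact ⟨n, i1, i2, Q, P, H, hEnd, by rw [r2, mul_one], by rw [r1, one_pow], hg⟩
  · rcases (show k = 1 ∨ 2 ≤ k by omega) with rfl | hk2
    · obtain ⟨n, i1, i2, Q, P, H, hEnd, r2, r1, hg⟩ := key l hl2
      exact ⟨n, i1, i2, Q, P, H, hEnd, by rw [r2, one_mul], by rw [r1, one_pow, add_comm], hg⟩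
    · obtain ⟨n, i1, i2, Q, P, H, hEnd, r2, r1, -, hg⟩ := Her27.UK.sharpKL k l hk2 hl2
      exact ⟨n, i1, i2, Q, P, H, hEnd, r2, r1, hg⟩

end MH
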